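import Pool.Agent.helper3.HPC.Lower

/-!
# The matching depth two circuits
-/

namespace Pool.Agent.helper3.HPC

open Finset Filter

set_option linter.unusedSectionVars false

section Fin

variable {V : Type} [Fintype V] [DecidableEq V] {s : ℕ}

/-- Index set of the gates: edges, vertex sets of size `m`, one output gate. -/
abbrev BIdx (V : Type) [DecidableEq V] (s m : ℕ) : Type :=
  Edge V s ⊕ ({B : Finset V // B.card = m} ⊕ Unit)

/-- Level function. -/
def bDep {m : ℕ} : BIdx V s m → ℕ
  | Sum.inl _ => 0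
  | Sum.inr (Sum.inl _) => 1
  | Sum.inr (Sum.inr _) => 2

/-- The gates of the brute force circuit. -/
def bGate {m : ℕ} : BIdx V s m → Gate (Hyp V s) (BIdx V s m)
  | Sum.inl e => Gate.inp (fun x => x e)
  | Sum.inr (Sum.inl B) => Gate.all
      ((Finset.univ.filter (fun e : Edge V s => e.1 ⊆ B.1)).image (fun e => (Sum.inl e, true)))
  | Sum.inr (Sum.inr _) => Gate.any
      ((Finset.univ : Finset {B : Finset V // B.card = m}).image
        (fun B => (Sum.inr (Sum.inl B), true)))

/-- The brute force circuit: is there a complete sub-hypergraph on `m` vertices? -/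
def brute (V : Type) [Fintype V] [DecidableEq V] (s m : ℕ) : Circuit (Hyp V s) (BIdx V s m) 2 where
  gate := bGate
  dep := bDep
  dep_le := by
    rintro (e | B | _) <;> simp [bDep]
  dep_all := by
    rintro (e | B | _) A h p hp
    · simp [bGate] at h
    · simp only [bGate, Gate.all.injEq] at h
      subst h
      obtain ⟨e, _, rfl⟩ := Finset.mem_image.1 hp
      simp [bDep]
    · simp [bGate] at h
  dep_any := by
    rintro (e | B | _) A h p hp
    · simp [bGate] at h
    · simp [bGate] at h
    · simp only [bGate, Gate.any.injEq] at h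
      subst h
      obtain ⟨e, _, rfl⟩ := Finset.mem_image.1 hp
      simp [bDep]

/-- The values of the gates. -/
def bVal {m : ℕ} : BIdx V s m → Hyp V s → Bool
  | Sum.inl e, x => x e
  | Sum.inr (Sum.inl B), x => decide (∀ e : Edge V s, e.1 ⊆ B.1 → x e = true)
  | Sum.inr (Sum.inr _), x => decide (∃ B : {B : Finset V // B.card = m},
      ∀ e : Edge V s, e.1 ⊆ B.1 → x e = true)

lemma brute_vals (m : ℕ) : (brute V s m).Vals bVal := by
  rintro (e | B | u) x
  · show bVal (Sum.inl e) x = x e
    rfl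
  · show (bVal (Sum.inr (Sum.inl B)) x = true ↔ ∀ p ∈
      (Finset.univ.filter (fun e : Edge V s => e.1 ⊆ B.1)).image (fun e => (Sum.inl e, true)),
        bVal p.1 x = p.2)
    simp only [bVal, decide_eq_true_eq]
    constructor
    · intro h p hp
      obtain ⟨e, he, rfl⟩ := Finset.mem_image.1 hp
      exact h e (by simpa using he)
    · intro h e he
      exact h (Sum.inl e, true) (Finset.mem_image.2 ⟨e, by simpa using he, rfl⟩)
  · show (bVal (Sum.inr (Sum.inr u)) x = true ↔ ∃ p ∈
      (Finset.univ : Finset {B : Finset V // B.card = m}).image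
        (fun B => (Sum.inr (Sum.inl B), true)), bVal p.1 x = p.2)
    simp only [bVal, decide_eq_true_eq]
    constructor
    · rintro ⟨B, hB⟩
      refine ⟨(Sum.inr (Sum.inl B), true), Finset.mem_image.2 ⟨B, Finset.mem_univ _, rfl⟩, ?_⟩
      simpa [bVal] using hB
    · rintro ⟨p, hp, h⟩
      obtain ⟨B, _, rfl⟩ := Finset.mem_image.1 hp
      refine ⟨B, ?_⟩
      simpa [bVal] using h

lemma brute_local (m : ℕ) : (brute V s m).LocalInputs s := by
  rintro (e | B | u) f hf
  · change Gate.inp (fun x : Hyp V s => x e) = Gate.inp f at hf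
    have hf' : (fun x : Hyp V s => x e) = f := by
      simpa using hf
    subst hf'
    exact ⟨e.1, e.2.le, fun x y h => h e (Finset.Subset.refl _)⟩
  · simp [brute, bGate] at hf
  · simp [brute, bGate] at hf

lemma card_full (B : Finset V) :
    Fintype.card {x : Hyp V s // ∀ e : Edge V s, e.1 ⊆ B → x e = true} * 2 ^ (B.card.choose s) =
      Fintype.card (Hyp V s) := by
  classical
  have h1 := card_agree (V := V) (s := s)
    ((Finset.univ : Finset (Edge V s)).filter (fun e => ¬ e.1 ⊆ B)) (fun _ => true)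
  have h2 : Fintype.card {x : Hyp V s // ∀ e : Edge V s, e.1 ⊆ B → x e = true} =
      Fintype.card {z' : Hyp V s // ∀ e, e ∉ (Finset.univ : Finset (Edge V s)).filter
        (fun e => ¬ e.1 ⊆ B) → z' e = true} := by
    refine Fintype.card_congr (Equiv.subtypeEquivRight fun x => ?_)
    simp
  rw [h2, h1, ← pow_add]
  have h3 := Finset.card_filter_add_card_filter_not (s := (Finset.univ : Finset (Edge V s)))
    (fun e => e.1 ⊆ B)
  rw [card_edges] at h3
  rw [add_comm, h3, Finset.card_univ, Fintype.card_fun, Fintype.card_bool]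

lemma brute_errI (m : ℕ) :
    errI (bVal (V := V) (s := s) (m := m) (Sum.inr (Sum.inr ()))) ≤
      (Fintype.card V : ℝ) ^ m / 2 ^ (m.choose s) := by
  classical
  unfold errI
  have hX0 : (0 : ℝ) < Fintype.card (Hyp V s) := by exact_mod_cast Fintype.card_pos
  rw [div_le_div_iff₀ hX0 (by positivity)]
  have h1 : (Finset.univ : Finset (Hyp V s)).filter
      (fun x => bVal (m := m) (Sum.inr (Sum.inr ())) x = true) ⊆
      (Finset.univ.powersetCard m).biUnion (fun B : Finset V =>
        (Finset.univ : Finset (Hyp V s)).filter (fun x => ∀ e : Edge V s, e.1 ⊆ B → x e = true)) := by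
    intro x hx
    simp only [Finset.mem_filter, Finset.mem_univ, true_and, bVal, decide_eq_true_eq] at hx
    obtain ⟨B, hB⟩ := hx
    rw [Finset.mem_biUnion]
    exact ⟨B.1, Finset.mem_powersetCard.2 ⟨Finset.subset_univ _, B.2⟩, by simpa using hB⟩
  have h2 := (Finset.card_le_card h1).trans Finset.card_biUnion_le
  have h3 : ∀ B ∈ (Finset.univ : Finset V).powersetCard m,
      (((Finset.univ : Finset (Hyp V s)).filter
        (fun x => ∀ e : Edge V s, e.1 ⊆ B → x e = true)).card : ℝ) * 2 ^ (m.choose s) =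
        Fintype.card (Hyp V s) := by
    intro B hB
    have h4 := card_full (s := s) B
    rw [(Finset.mem_powersetCard.1 hB).2, Fintype.card_subtype] at h4
    exact_mod_cast h4
  have h5 : (((Finset.univ : Finset (Hyp V s)).filter
      (fun x => bVal (m := m) (Sum.inr (Sum.inr ())) x = true)).card : ℝ) ≤
      ∑ B ∈ (Finset.univ : Finset V).powersetCard m, (((Finset.univ : Finset (Hyp V s)).filter
        (fun x => ∀ e : Edge V s, e.1 ⊆ B → x e = true)).card : ℝ) := by
    exact_mod_cast h2
  rw [Fintype.card_subtype]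
  calc _ ≤ (∑ B ∈ (Finset.univ : Finset V).powersetCard m,
        (((Finset.univ : Finset (Hyp V s)).filter
        (fun x => ∀ e : Edge V s, e.1 ⊆ B → x e = true)).card : ℝ)) * 2 ^ (m.choose s) :=
        mul_le_mul_of_nonneg_right h5 (by positivity)
    _ = ∑ _B ∈ (Finset.univ : Finset V).powersetCard m, (Fintype.card (Hyp V s) : ℝ) := by
        rw [Finset.sum_mul]
        exact Finset.sum_congr rfl h3
    _ = ((Fintype.card V).choose m : ℝ) * Fintype.card (Hyp V s) := by
        rw [Finset.sum_const, nsmul_eq_mul, Finset.card_powersetCard, Finset.card_univ]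
    _ ≤ _ := by
        refine mul_le_mul_of_nonneg_right ?_ hX0.le
        exact_mod_cast Nat.choose_le_pow _ _

lemma brute_errII {κ : Type} [Fintype κ] [DecidableEq κ] (blk : V → κ) {m : ℕ}
    (hm : m ≤ Fintype.card κ) :
    errII blk (bVal (V := V) (s := s) (m := m) (Sum.inr (Sum.inr ()))) = 0 := by
  classical
  unfold errII
  have h1 : Fintype.card {q : (κ → V) × Hyp V s //
      (∀ j, blk (q.1 j) = j) ∧ bVal (m := m) (Sum.inr (Sum.inr ()))
        (plant (Finset.univ.image q.1) q.2) = false} = 0 := by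
    rw [Fintype.card_eq_zero_iff]
    constructor
    rintro ⟨⟨g, x⟩, hg, hf⟩
    simp only at hg hf
    have hinj : Function.Injective g := by
      intro i j hij
      rw [← hg i, ← hg j, hij]
    have hcard : (Finset.univ.image g).card = Fintype.card κ := by
      rw [Finset.card_image_of_injective _ hinj, Finset.card_univ]
    obtain ⟨B, hB1, hB2⟩ := Finset.exists_subset_card_eq (hm.trans hcard.ge)
    have : bVal (m := m) (Sum.inr (Sum.inr ())) (plant (Finset.univ.image g) x) = true := by
      simp only [bVal, decide_eq_true_eq]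
      refine ⟨⟨B, hB2⟩, ?_⟩
      intro e he
      simp only [plant, Bool.or_eq_true, decide_eq_true_eq]
      exact Or.inr (he.trans hB1)
    rw [this] at hf
    cases hf
  rw [h1]
  simp

end Fin

/-- **Upper bound.** -/
theorem upper (s : ℕ) (hs : 2 ≤ s) :
    ∃ K > (0 : ℝ), ∃ n₀ : ℕ, ∀ n ≥ n₀, ∀ k : ℕ,
      K * (Real.log n) ^ (1 / ((s : ℝ) - 1)) ≤ k → ∀ blk : Fin n → Fin k,
      ∃ (ι : Type) (_ : Fintype ι) (C : Circuit (Hyp (Fin n) s) ι 2)
        (v : ι → Hyp (Fin n) s → Bool) (i : ι),
        (Fintype.card ι : ℝ) ≤ (n : ℝ) ^ (K * (Real.log n) ^ (1 / ((s : ℝ) - 1))) ∧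
        C.LocalInputs s ∧ C.Vals v ∧ errI (v i) ≤ 1 / n ∧ errII blk (v i) = 0 := by
  set a : ℝ := 1 / ((s : ℝ) - 1) with ha
  have hs' : (2 : ℝ) ≤ s := by exact_mod_cast hs
  have ha0 : 0 < a := by rw [ha]; exact one_div_pos.2 (by linarith)
  set K' : ℝ := 3 * (2 * s) ^ s with hK'
  have hK'1 : 1 ≤ K' := by
    have : (1 : ℝ) ≤ (2 * s) ^ s := one_le_pow₀ (by linarith)
    rw [hK']; linarith
  refine ⟨K' + 3, by linarith, ?_⟩
  have hev := (ev_logpow (max 1 (2 * s)) ha0).and (eventually_ge_atTop 3)
  obtain ⟨n₀, hn₀⟩ := eventually_atTop.1 hev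
  refine ⟨n₀, fun n hn k hk blk => ?_⟩
  obtain ⟨e1, e2⟩ := hn₀ n hn
  set x : ℝ := (n : ℝ) with hx
  have hx3 : (3 : ℝ) ≤ x := by rw [hx]; exact_mod_cast e2
  have hx0 : 0 < x := by linarith
  have hx1 : 1 ≤ x := by linarith
  set L : ℝ := Real.log x with hL
  have hL1 : 1 ≤ L := by
    rw [hL, Real.le_log_iff_exp_le hx0]
    have := Real.exp_one_lt_d9
    linarith
  set u : ℝ := L ^ a with hu
  have hu1 : 1 ≤ u := (le_max_left _ _).trans e1
  have hu2 : 2 * (s : ℝ) ≤ u := (le_max_right _ _).trans e1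
  have hus : u ^ (s - 1) = L := by
    rw [hu, ← Real.rpow_natCast, ← Real.rpow_mul (by linarith)]
    rw [Nat.cast_sub (by omega), Nat.cast_one, ha, one_div, inv_mul_cancel₀ (by linarith),
      Real.rpow_one]
  set m : ℕ := ⌈K' * u⌉₊ with hm
  have hm1 : K' * u ≤ m := Nat.le_ceil _
  have hm2 : (m : ℝ) < K' * u + 1 := Nat.ceil_lt_add_one (by positivity)
  have hmk : m ≤ k := by
    have h1 : (m : ℝ) ≤ k := by nlinarith
    exact_mod_cast h1
  have hms : 2 * s ≤ m := by
    have h1 : ((2 * s : ℕ) : ℝ) ≤ m := by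
      push_cast
      nlinarith
    exact_mod_cast h1
  have hm0 : (0 : ℝ) < m := by
    have : 0 < m := by omega
    exact_mod_cast this
  refine ⟨BIdx (Fin n) s m, inferInstance, brute (Fin n) s m, bVal, Sum.inr (Sum.inr ()),
    ?_, brute_local m, brute_vals m, ?_, ?_⟩
  · have h1 : Fintype.card (BIdx (Fin n) s m) = n.choose s + (n.choose m + 1) := by
      have h2 : Fintype.card (Edge (Fin n) s) = n.choose s := by
        simp [Edge, Fintype.card_finset_len]
      have h3 : Fintype.card {B : Finset (Fin n) // B.card = m} = n.choose m := by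
        simp [Fintype.card_finset_len]
      rw [Fintype.card_sum, Fintype.card_sum, h2, h3, Fintype.card_unit]
    rw [h1]
    have h4 : n.choose s + (n.choose m + 1) ≤ n ^ (m + 1) := by
      have h5 : n.choose s ≤ n ^ m :=
        (Nat.choose_le_pow n s).trans (Nat.pow_le_pow_right (by omega) (by omega))
      have h6 : n.choose m ≤ n ^ m := Nat.choose_le_pow n m
      have h7 : 1 ≤ n ^ m := Nat.one_le_pow _ _ (by omega)
      have h8 : 3 * n ^ m ≤ n ^ (m + 1) := by
        rw [pow_succ, mul_comm]
        exact Nat.mul_le_mul_left _ (by omega)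
      omega
    calc ((n.choose s + (n.choose m + 1) : ℕ) : ℝ) ≤ ((n ^ (m + 1) : ℕ) : ℝ) := by
          exact_mod_cast h4
      _ = x ^ ((m : ℝ) + 1) := by
          rw [Nat.cast_pow, ← Real.rpow_natCast]
          push_cast
          rfl
      _ ≤ x ^ ((K' + 3) * u) := by
          refine Real.rpow_le_rpow_of_exponent_le hx1 ?_
          nlinarith
  · refine (brute_errI m).trans ?_
    rw [Fintype.card_fin]
    have hchoose : 3 * (m : ℝ) * L ≤ (m.choose s : ℝ) := by
      have h1 : ((m + 1 - s : ℕ) ^ s : ℝ) ≤ (s.factorial : ℝ) * (m.choose s : ℝ) := by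
        have h0 := Nat.pow_sub_le_descFactorial m s
        rw [Nat.descFactorial_eq_factorial_mul_choose] at h0
        exact_mod_cast h0
      have h2 : (s.factorial : ℝ) ≤ (s : ℝ) ^ s := by
        exact_mod_cast Nat.factorial_le_pow s
      have h3 : (m : ℝ) / 2 ≤ ((m + 1 - s : ℕ) : ℝ) := by
        rw [Nat.cast_sub (by omega)]
        push_cast
        have : (2 * s : ℝ) ≤ m := by exact_mod_cast hms
        linarith
      have h4 : ((m : ℝ) / 2) ^ s ≤ (s : ℝ) ^ s * (m.choose s : ℝ) := by
        calc ((m : ℝ) / 2) ^ s ≤ ((m + 1 - s : ℕ) : ℝ) ^ s :=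
              pow_le_pow_left₀ (by positivity) h3 _
          _ ≤ (s.factorial : ℝ) * (m.choose s : ℝ) := by exact_mod_cast h1
          _ ≤ _ := mul_le_mul_of_nonneg_right h2 (by positivity)
      have h5 : (m : ℝ) ^ s ≤ (2 * s) ^ s * (m.choose s : ℝ) := by
        have h6 : (m : ℝ) ^ s = 2 ^ s * ((m : ℝ) / 2) ^ s := by
          rw [← mul_pow]; congr 1; ring
        rw [h6, mul_pow, mul_assoc]
        exact mul_le_mul_of_nonneg_left h4 (by positivity)
      have h7 : (m : ℝ) ^ s = m * (m : ℝ) ^ (s - 1) := by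
        rw [← pow_succ']
        congr 1
        omega
      have h8 : K' * L ≤ (m : ℝ) ^ (s - 1) := by
        calc K' * L ≤ K' ^ (s - 1) * u ^ (s - 1) := by
              rw [hus]
              refine mul_le_mul_of_nonneg_right ?_ (by linarith)
              calc K' = K' ^ 1 := (pow_one _).symm
                _ ≤ K' ^ (s - 1) := pow_le_pow_right₀ hK'1 (by omega)
          _ = (K' * u) ^ (s - 1) := (mul_pow K' u (s - 1)).symm
          _ ≤ (m : ℝ) ^ (s - 1) := pow_le_pow_left₀ (by positivity) hm1 _
      have h9 : (2 * (s : ℝ)) ^ s * (3 * (m : ℝ) * L) ≤ (2 * s) ^ s * (m.choose s : ℝ) := by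
        calc (2 * (s : ℝ)) ^ s * (3 * (m : ℝ) * L) = m * (K' * L) := by rw [hK']; ring
          _ ≤ m * (m : ℝ) ^ (s - 1) := mul_le_mul_of_nonneg_left h8 hm0.le
          _ = (m : ℝ) ^ s := h7.symm
          _ ≤ _ := h5
      exact le_of_mul_le_mul_left h9 (by positivity)
    have hpow2 : Real.exp (2 * (m : ℝ) * L) ≤ 2 ^ (m.choose s) := by
      rw [← Real.rpow_natCast, Real.rpow_def_of_pos (by norm_num : (0 : ℝ) < 2)]
      refine Real.exp_le_exp.2 ?_
      have h1 := Real.log_two_gt_d9
      have h2 : (0 : ℝ) ≤ 3 * (m : ℝ) * L := by positivity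
      calc 2 * (m : ℝ) * L ≤ Real.log 2 * (3 * (m : ℝ) * L) := by
            have h3 : (0 : ℝ) ≤ (m : ℝ) * L := by positivity
            nlinarith
        _ ≤ Real.log 2 * (m.choose s : ℝ) :=
            mul_le_mul_of_nonneg_left hchoose (by linarith)
    have hxm : x ^ m = Real.exp (m * L) := by
      rw [Real.exp_nat_mul, hL, Real.exp_log hx0]
    rw [hxm, div_le_div_iff₀ (by positivity) hx0, one_mul]
    calc Real.exp (m * L) * x = Real.exp (m * L + L) := by
          rw [Real.exp_add, hL, Real.exp_log hx0]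
      _ ≤ Real.exp (2 * (m : ℝ) * L) := by
          refine Real.exp_le_exp.2 ?_
          have : (1 : ℝ) ≤ m := by
            have : 1 ≤ m := by omega
            exact_mod_cast this
          nlinarith
      _ ≤ _ := hpow2
  · exact brute_errII blk (by rw [Fintype.card_fin]; exact hmk)

end Pool.Agent.helper3.HPC
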