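import Pool.Agent.helper3.HPC.Circ

/-!
# Every circuit has exactly one valuation
-/

namespace Pool.Agent.helper3.HPC

open Classical in
/-- One round of evaluation of all gates. -/
noncomputable def Circuit.round {α ι : Type} {d : ℕ} (C : Circuit α ι d) (v : ι → α → Bool) :
    ι → α → Bool := fun i x =>
  match C.gate i with
  | Gate.inp f => f x
  | Gate.all A => decide (∀ p ∈ A, v p.1 x = p.2)
  | Gate.any A => decide (∃ p ∈ A, v p.1 x = p.2)

lemma bool_iff_decide (b : Bool) (P : Prop) [Decidable P] : (b = true ↔ P) ↔ b = decide P := by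
  by_cases h : P <;> cases b <;> simp [h]

lemma Circuit.gateVal_iff {α ι : Type} {d : ℕ} (C : Circuit α ι d) (v : ι → α → Bool)
    (b : Bool) (i : ι) (x : α) : GateVal v x b (C.gate i) ↔ b = C.round v i x := by
  unfold Circuit.round
  cases h : C.gate i with
  | inp f => exact Iff.rfl
  | all A => exact bool_iff_decide _ _
  | any A => exact bool_iff_decide _ _

lemma Circuit.round_congr {α ι : Type} {d : ℕ} (C : Circuit α ι d) {v w : ι → α → Bool} {i : ι}
    (h : ∀ j, C.dep j < C.dep i → v j = w j) : C.round v i = C.round w i := by
  funext x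
  unfold Circuit.round
  cases hg : C.gate i with
  | inp f => rfl
  | all A =>
    have : (∀ p ∈ A, v p.1 x = p.2) ↔ (∀ p ∈ A, w p.1 x = p.2) :=
      forall₂_congr fun p hp => by rw [h p.1 (C.dep_all i A hg p hp)]
    simp only [this]
  | any A =>
    have : (∃ p ∈ A, v p.1 x = p.2) ↔ (∃ p ∈ A, w p.1 x = p.2) :=
      exists_congr fun p => and_congr_right fun hp => by rw [h p.1 (C.dep_any i A hg p hp)]
    simp only [this]

/-- Every circuit has exactly one valuation of its gates. -/
theorem Circuit.existsUnique_vals {α ι : Type} {d : ℕ} (C : Circuit α ι d) :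
    ∃! v : ι → α → Bool, C.Vals v := by
  have key : ∀ v : ι → α → Bool, C.Vals v ↔ C.round v = v := by
    intro v
    constructor
    · intro h
      funext i x
      exact ((C.gateVal_iff v _ i x).1 (h i x)).symm
    · intro h i x
      rw [C.gateVal_iff, h]
  have h1 : ∀ n i, C.dep i < n →
      C.round (C.round^[n] (fun _ _ => false)) i = (C.round^[n] (fun _ _ => false)) i := by
    intro n
    induction n with
    | zero => intro i hi; omega
    | succ n ih =>
      intro i hi
      rw [Function.iterate_succ_apply']
      exact C.round_congr fun j hj => ih j (by omega)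
  have hv : C.round (C.round^[d + 1] (fun _ _ => false)) = C.round^[d + 1] (fun _ _ => false) := by
    funext i
    exact h1 (d + 1) i (Nat.lt_succ_of_le (C.dep_le i))
  refine ⟨C.round^[d + 1] (fun _ _ => false), (key _).2 hv, ?_⟩
  intro w hw
  have hw' := (key w).1 hw
  have h2 : ∀ n i, C.dep i < n → w i = (C.round^[d + 1] (fun _ _ => false)) i := by
    intro n
    induction n with
    | zero => intro i hi; omega
    | succ n ih =>
      intro i hi
      rw [← hw', ← hv]
      exact C.round_congr fun j hj => ih j (by omega)
  funext i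
  exact h2 (d + 1) i (Nat.lt_succ_of_le (C.dep_le i))

end Pool.Agent.helper3.HPC
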