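import Mathlib

/-!
# Bernoulli averages over subsets of a finite set
-/

namespace Pool.Agent.helper3.HPC

open Finset

set_option linter.unusedSectionVars false

variable {V : Type} [DecidableEq V]

/-- The average of `f` over a random subset of `W` that contains every element independently with
probability `p`. -/
noncomputable def bern (p : ℝ) (W : Finset V) (f : Finset V → ℝ) : ℝ :=
  ∑ U ∈ W.powerset, p ^ U.card * (1 - p) ^ (W.card - U.card) * f U

lemma bern_empty (p : ℝ) (f : Finset V → ℝ) : bern p ∅ f = f ∅ := by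
  simp [bern]

lemma bern_insert (p : ℝ) {W : Finset V} {a : V} (ha : a ∉ W) (f : Finset V → ℝ) :
    bern p (insert a W) f = p * bern p W (fun U => f (insert a U)) + (1 - p) * bern p W f := by
  unfold bern
  rw [Finset.sum_powerset_insert ha, Finset.mul_sum, Finset.mul_sum, add_comm]
  congr 1
  · refine Finset.sum_congr rfl fun U hU => ?_
    have hUW := Finset.mem_powerset.1 hU
    have haU : a ∉ U := fun h => ha (hUW h)
    rw [Finset.card_insert_of_notMem ha, Finset.card_insert_of_notMem haU]
    rw [show W.card + 1 - (U.card + 1) = W.card - U.card by omega, pow_succ]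
    ring
  · refine Finset.sum_congr rfl fun U hU => ?_
    have hUW := Finset.mem_powerset.1 hU
    have hc := Finset.card_le_card hUW
    rw [Finset.card_insert_of_notMem ha]
    rw [show W.card + 1 - U.card = (W.card - U.card) + 1 by omega, pow_succ]
    ring

lemma bern_add (p : ℝ) (W : Finset V) (f g : Finset V → ℝ) :
    bern p W (fun U => f U + g U) = bern p W f + bern p W g := by
  unfold bern
  rw [← Finset.sum_add_distrib]
  exact Finset.sum_congr rfl fun U _ => by ring

lemma bern_mul (p : ℝ) (W : Finset V) (c : ℝ) (f : Finset V → ℝ) :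
    bern p W (fun U => c * f U) = c * bern p W f := by
  unfold bern
  rw [Finset.mul_sum]
  exact Finset.sum_congr rfl fun U _ => by ring

lemma bern_sum (p : ℝ) (W : Finset V) {ι : Type} (t : Finset ι) (f : ι → Finset V → ℝ) :
    bern p W (fun U => ∑ i ∈ t, f i U) = ∑ i ∈ t, bern p W (f i) := by
  unfold bern
  rw [Finset.sum_comm]
  exact Finset.sum_congr rfl fun U _ => by rw [Finset.mul_sum]

lemma bern_mono {p : ℝ} (h0 : 0 ≤ p) (h1 : p ≤ 1) (W : Finset V) {f g : Finset V → ℝ}
    (h : ∀ U, U ⊆ W → f U ≤ g U) : bern p W f ≤ bern p W g := by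
  unfold bern
  refine Finset.sum_le_sum fun U hU => ?_
  have : 0 ≤ p ^ U.card * (1 - p) ^ (W.card - U.card) :=
    mul_nonneg (pow_nonneg h0 _) (pow_nonneg (by linarith) _)
  exact mul_le_mul_of_nonneg_left (h U (Finset.mem_powerset.1 hU)) this

lemma bern_congr (p : ℝ) (W : Finset V) {f g : Finset V → ℝ}
    (h : ∀ U, U ⊆ W → f U = g U) : bern p W f = bern p W g := by
  unfold bern
  exact Finset.sum_congr rfl fun U hU => by rw [h U (Finset.mem_powerset.1 hU)]

lemma bern_nonneg {p : ℝ} (h0 : 0 ≤ p) (h1 : p ≤ 1) (W : Finset V) {f : Finset V → ℝ}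
    (h : ∀ U, U ⊆ W → 0 ≤ f U) : 0 ≤ bern p W f := by
  unfold bern
  refine Finset.sum_nonneg fun U hU => ?_
  exact mul_nonneg (mul_nonneg (pow_nonneg h0 _) (pow_nonneg (by linarith) _))
    (h U (Finset.mem_powerset.1 hU))

lemma bern_one (p : ℝ) (W : Finset V) : bern p W (fun _ => 1) = 1 := by
  induction W using Finset.induction_on with
  | empty => simp [bern]
  | insert a W ha ih => rw [bern_insert p ha, ih]; ring

lemma bern_const (p : ℝ) (W : Finset V) (c : ℝ) : bern p W (fun _ => c) = c := by
  have := bern_mul p W c (fun _ => (1 : ℝ))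
  simpa [bern_one] using this

/-- Two independent thinnings compose. -/
lemma bern_bern (p q : ℝ) (W : Finset V) (f : Finset V → ℝ) :
    bern p W (fun U => bern q U f) = bern (p * q) W f := by
  induction W using Finset.induction_on generalizing f with
  | empty => simp [bern]
  | insert a W ha ih =>
    rw [bern_insert p ha, bern_insert (p * q) ha, ih]
    have : bern p W (fun U => bern q (insert a U) f)
        = bern p W (fun U => q * bern q U (fun U' => f (insert a U')) + (1 - q) * bern q U f) := by
      refine bern_congr p W fun U hU => ?_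
      exact bern_insert q (fun h => ha (hU h)) f
    rw [this, bern_add, bern_mul, bern_mul, ih, ih]
    ring

/-- Product functions. -/
lemma bern_prod (p : ℝ) (W : Finset V) (a : V → ℝ) :
    bern p W (fun U => ∏ v ∈ U, a v) = ∏ v ∈ W, (1 - p + p * a v) := by
  induction W using Finset.induction_on with
  | empty => simp [bern]
  | insert b W hb ih =>
    rw [bern_insert p hb, Finset.prod_insert hb]
    have : bern p W (fun U => ∏ v ∈ insert b U, a v)
        = bern p W (fun U => a b * ∏ v ∈ U, a v) := by
      refine bern_congr p W fun U hU => ?_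
      exact Finset.prod_insert (fun h => hb (hU h))
    rw [this, bern_mul, ih]
    ring

/-- Removing a subset of size `t` from the random set costs a factor `(p/(1-p))^t`. -/
lemma bern_shrink {p : ℝ} (h1 : p < 1) (W : Finset V) (t : ℕ)
    (Φ : Finset V → Finset V → ℝ) :
    bern p W (fun U => ∑ R ∈ U.powersetCard t, Φ U R) ≤
      (p / (1 - p)) ^ t * bern p W (fun U => ∑ R ∈ (W \ U).powersetCard t, Φ (U ∪ R) R) := by
  have hp : 0 < 1 - p := by linarith
  unfold bern
  simp_rw [Finset.mul_sum]
  rw [Finset.sum_sigma', Finset.sum_sigma']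
  refine le_of_eq ?_
  refine Finset.sum_bij' (fun a _ => (⟨a.1 \ a.2, a.2⟩ : Σ _ : Finset V, Finset V))
    (fun b _ => (⟨b.1 ∪ b.2, b.2⟩ : Σ _ : Finset V, Finset V)) ?_ ?_ ?_ ?_ ?_
  · rintro ⟨U, R⟩ h
    simp only [Finset.mem_sigma, Finset.mem_powerset, Finset.mem_powersetCard] at h ⊢
    obtain ⟨hU, hR, hc⟩ := h
    refine ⟨Finset.sdiff_subset.trans hU, ?_, hc⟩
    intro v hv
    simp only [Finset.mem_sdiff, not_and, not_not]
    exact ⟨hU (hR hv), fun _ => hv⟩
  · rintro ⟨U, R⟩ h
    simp only [Finset.mem_sigma, Finset.mem_powerset, Finset.mem_powersetCard] at h ⊢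
    obtain ⟨hU, hR, hc⟩ := h
    exact ⟨Finset.union_subset hU (hR.trans Finset.sdiff_subset), Finset.subset_union_right, hc⟩
  · rintro ⟨U, R⟩ h
    simp only [Finset.mem_sigma, Finset.mem_powerset, Finset.mem_powersetCard] at h
    obtain ⟨hU, hR, hc⟩ := h
    simp only [Sigma.mk.injEq, heq_eq_eq, and_true]
    exact Finset.sdiff_union_of_subset hR
  · rintro ⟨U, R⟩ h
    simp only [Finset.mem_sigma, Finset.mem_powerset, Finset.mem_powersetCard] at h
    obtain ⟨hU, hR, hc⟩ := h
    simp only [Sigma.mk.injEq, heq_eq_eq, and_true]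
    have hd : Disjoint U R := by
      rw [Finset.disjoint_left]
      intro v hv hv2
      exact (Finset.mem_sdiff.1 (hR hv2)).2 hv
    rw [Finset.union_sdiff_right]
    exact Finset.sdiff_eq_self_of_disjoint hd
  · rintro ⟨U, R⟩ h
    simp only [Finset.mem_sigma, Finset.mem_powerset, Finset.mem_powersetCard] at h
    obtain ⟨hU, hR, hc⟩ := h
    have e1 : (U \ R).card = U.card - t := by
      rw [Finset.card_sdiff_of_subset hR, hc]
    have hRU : t ≤ U.card := hc ▸ Finset.card_le_card hR
    have hUW : U.card ≤ W.card := Finset.card_le_card hU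
    have e2 : U \ R ∪ R = U := Finset.sdiff_union_of_subset hR
    simp only [e1, e2]
    have e3 : p ^ U.card = p ^ t * p ^ (U.card - t) := by
      rw [← pow_add]; congr 1; omega
    have e4 : (1 - p) ^ (W.card - (U.card - t)) = (1 - p) ^ t * (1 - p) ^ (W.card - U.card) := by
      rw [← pow_add]; congr 1; omega
    rw [e3, e4, div_pow]
    have : (1 - p) ^ t ≠ 0 := (pow_pos hp t).ne'
    field_simp

end Pool.Agent.helper3.HPC
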