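import Pool.Agent.helper3.HPC.Switch

/-!
# Bounded depth circuits and iterated restrictions
-/

namespace Pool.Agent.helper3.HPC

open Finset

set_option linter.unusedSectionVars false

/-- A gate of a circuit with inputs from `α`: an input gate carries a Boolean function; a gate
`all A` (`any A`) is an unbounded fan-in conjunction (disjunction) of the gates `i`, `(i, true) ∈ A`,
and of the negations of the gates `i`, `(i, false) ∈ A`. -/
inductive Gate (α ι : Type) : Type
  | inp (f : α → Bool)
  | all (A : Finset (ι × Bool))
  | any (A : Finset (ι × Bool))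

/-- A circuit with gates indexed by `ι` in which every path meets at most `d` gates that are not
input gates: `dep` is a level function. -/
structure Circuit (α ι : Type) (d : ℕ) : Type where
  /-- the gates -/
  gate : ι → Gate α ι
  /-- the level function -/
  dep : ι → ℕ
  dep_le : ∀ i, dep i ≤ d
  dep_all : ∀ i A, gate i = Gate.all A → ∀ p ∈ A, dep p.1 < dep i
  dep_any : ∀ i A, gate i = Gate.any A → ∀ p ∈ A, dep p.1 < dep i

/-- The condition on the value `b` of a gate, when the values of the other gates are given. -/
def GateVal {α ι : Type} (v : ι → α → Bool) (x : α) (b : Bool) : Gate α ι → Prop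
  | Gate.inp f => b = f x
  | Gate.all A => (b = true ↔ ∀ p ∈ A, v p.1 x = p.2)
  | Gate.any A => (b = true ↔ ∃ p ∈ A, v p.1 x = p.2)

/-- `v i x` is the value of the gate `i` of the circuit on the input `x`. -/
def Circuit.Vals {α ι : Type} {d : ℕ} (C : Circuit α ι d) (v : ι → α → Bool) : Prop :=
  ∀ i x, GateVal v x (v i x) (C.gate i)

variable {V : Type} [Fintype V] [DecidableEq V] {s : ℕ}

/-- A function of a hypergraph that depends only on the edges inside a set of `r` vertices. -/
def IsLocal (r : ℕ) (f : Hyp V s → Bool) : Prop :=
  ∃ R : Finset V, R.card ≤ r ∧ ∀ x y : Hyp V s, Agr R x y → f x = f y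

/-- All input gates are local functions. -/
def Circuit.LocalInputs {ι : Type} {d : ℕ} (C : Circuit (Hyp V s) ι d) (r : ℕ) : Prop :=
  ∀ i f, C.gate i = Gate.inp f → IsLocal r f

lemma IsLocal.cert {r : ℕ} {f : Hyp V s → Bool} (h : IsLocal r f) (W : Finset V)
    (x : Hyp V s) : Cert W x f r := by
  obtain ⟨R, h1, h2⟩ := h
  intro x' hx'
  refine ⟨R ∩ W, Finset.inter_subset_right,
    (Finset.card_le_card Finset.inter_subset_left).trans h1, ?_⟩
  intro x'' hx'' ha
  refine (h2 x' x'' ?_).symm
  intro e he
  by_cases hc : e.1 ⊆ W
  · exact ha e (Finset.subset_inter he hc)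
  · rw [← hx' e hc, ← hx'' e hc]

/-- Edges of `x` outside `W`, edges of `y` inside `W`. -/
def mix (W : Finset V) (x y : Hyp V s) : Hyp V s := fun e => if e.1 ⊆ W then y e else x e

lemma mix_mix (W : Finset V) (x y : Hyp V s) : mix W (mix W x y) (mix W y x) = x := by
  funext e
  unfold mix
  by_cases h : e.1 ⊆ W <;> simp [h]

/-- The involution used to split the uniform measure. -/
def mixEquiv (W : Finset V) : (Hyp V s × Hyp V s) ≃ (Hyp V s × Hyp V s) where
  toFun q := (mix W q.1 q.2, mix W q.2 q.1)
  invFun q := (mix W q.1 q.2, mix W q.2 q.1)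
  left_inv q := by
    simp [mix_mix]
  right_inv q := by
    simp [mix_mix]

lemma mix_sum (W : Finset V) (h : Hyp V s → ℝ) :
    ∑ x : Hyp V s, ∑ y : Hyp V s, h (mix W x y) = Fintype.card (Hyp V s) * ∑ x : Hyp V s, h x := by
  have h1 : ∑ x : Hyp V s, ∑ y : Hyp V s, h (mix W x y) =
      ∑ q : Hyp V s × Hyp V s, h (mixEquiv W q).1 := by
    rw [Fintype.sum_prod_type]
    rfl
  rw [h1, Equiv.sum_comp (mixEquiv W) (fun q : Hyp V s × Hyp V s => h q.1),
    Fintype.sum_prod_type]
  simp [Finset.mul_sum]

lemma Reach.congr_in {F : List (Finset V × Hyp V s)} {U W : Finset V} {y y' : Hyp V s}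
    {R : Finset V} (hF : ∀ T ∈ F, T.1 ⊆ W) (h : Reach F U y R) (ha : Agr W y y') :
    Reach F U y' R := by
  induction h with
  | nil => exact Reach.nil
  | @step R T h h1 h2 ih =>
    refine Reach.step ih ?_ h2
    have key : ∀ T' ∈ F, (Ok U R y T' ↔ Ok U R y' T') := by
      intro T' hT'
      constructor
      · intro hT e he hc
        rw [← hT e he hc]
        exact (ha e (he.trans (hF T' hT'))).symm
      · intro hT e he hc
        rw [← hT e he hc]
        exact ha e (he.trans (hF T' hT'))
    exact fst_congr_some h1 (fun T' hT' h' => (key T' hT').2 h')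
      ((key T (fst_some h1).1).1 (fst_some h1).2)

lemma Bad.congr_in {F : List (Finset V × Hyp V s)} {U W : Finset V} {r : ℕ} {x x' : Hyp V s}
    (hF : ∀ T ∈ F, T.1 ⊆ W) (h : Bad F U r x) (ha : Agr W x x') : Bad F U r x' := by
  obtain ⟨y, hy, R, hR, hr⟩ := h
  refine ⟨mix W x' y, ?_, R, hR.congr_in hF ?_, hr⟩
  · intro e he
    unfold mix
    by_cases hc : e.1 ⊆ W
    · simp only [hc, if_true]
      rw [← ha e hc]
      exact hy e he
    · simp only [hc, if_false]
  · intro e he
    simp only [mix, he, if_true]

open Classical in
/-- The terms given by the certificates. -/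
noncomputable def terms (W : Finset V) (r : ℕ) (g : Hyp V s → Bool) (x : Hyp V s) :
    List (Finset V × Hyp V s) :=
  ((Finset.univ : Finset (Finset V × Hyp V s)).filter (fun T => T.1 ⊆ W ∧ T.1.card ≤ r ∧
    ∀ y, Off W x y → Agr T.1 T.2 y → g y = true)).toList

lemma mem_terms {W : Finset V} {r : ℕ} {g : Hyp V s → Bool} {x : Hyp V s}
    {T : Finset V × Hyp V s} : T ∈ terms W r g x ↔ T.1 ⊆ W ∧ T.1.card ≤ r ∧
    ∀ y, Off W x y → Agr T.1 T.2 y → g y = true := by
  simp [terms]

lemma terms_congr {W : Finset V} {r : ℕ} {g : Hyp V s → Bool} {x x' : Hyp V s}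
    (h : Off W x x') : terms W r g x = terms W r g x' := by
  classical
  unfold terms
  congr 1
  ext T
  simp only [Finset.mem_filter, Finset.mem_univ, true_and]
  refine and_congr_right fun _ => and_congr_right fun _ => ?_
  constructor
  · intro h1 y hy ha
    exact h1 y (h.trans hy) ha
  · intro h1 y hy ha
    exact h1 y (h.symm.trans hy) ha

open Classical in
/-- One round of the switching argument for one gate. -/
lemma gate_step {ι : Type} {r : ℕ} (hs : 1 ≤ s) (hr : 1 ≤ r) {p : ℝ} (hp0 : 0 ≤ p)
    (hp1 : p ≤ 1 / 2) (W : Finset V) (v : ι → Hyp V s → Bool) (g : Hyp V s → Bool)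
    (A : Finset (ι × Bool)) (hg : ∀ x, g x = true ↔ ∃ q ∈ A, v q.1 x = q.2)
    (Gd : Hyp V s → Prop) (hGd : ∀ x, Gd x → ∀ q ∈ A, Cert W x (v q.1) r) :
    ∑ x : Hyp V s, bern p W (fun U => if Gd x ∧ ¬ Cert U x g r then (1 : ℝ) else 0) ≤
      (∑ t ∈ Finset.Ioc r (r + r), (4 * r * p) ^ t * 4 ^ (t.choose s)) *
        Fintype.card (Hyp V s) := by
  set η : ℝ := ∑ t ∈ Finset.Ioc r (r + r), (4 * (r : ℝ) * p) ^ t * 4 ^ (t.choose s) with hη
  set h : Hyp V s → ℝ := fun x =>
    bern p W (fun U => if Bad (terms W r g x) U r x then (1 : ℝ) else 0) with hh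
  have h1 : ∀ x, bern p W (fun U => if Gd x ∧ ¬ Cert U x g r then (1 : ℝ) else 0) ≤ h x := by
    intro x
    refine bern_mono hp0 (by linarith) W fun U hU => ?_
    by_cases hc : Gd x ∧ ¬ Cert U x g r
    · have hb : Bad (terms W r g x) U r x := by
        by_contra hb
        refine hc.2 (cert_of_not_bad (F := terms W r g x) ?_ hb)
        intro y hy
        have hyW : Off W x y := hy.mono hU
        constructor
        · intro hgy
          obtain ⟨q, hq, hqy⟩ := (hg y).1 hgy
          obtain ⟨R, hR1, hR2, hR3⟩ := hGd x hc.1 q hq y hyW
          refine ⟨(R, y), mem_terms.2 ⟨hR1, hR2, ?_⟩, fun e _ => rfl⟩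
          intro y' hy' ha
          refine (hg y').2 ⟨q, hq, ?_⟩
          rw [← hqy]
          exact hR3 y' hy' ha
        · rintro ⟨T, hT, hTy⟩
          exact (mem_terms.1 hT).2.2 y hyW hTy
      simp [hc, hb]
    · simp only [hc, if_false]
      split_ifs <;> norm_num
  have h2 : ∀ x y, h (mix W x y) =
      bern p W (fun U => if Bad (terms W r g x) U r y then (1 : ℝ) else 0) := by
    intro x y
    have h3 : terms W r g (mix W x y) = terms W r g x := by
      refine terms_congr ?_
      intro e he
      simp only [mix, he, if_false]
    have h4 : ∀ U, (Bad (terms W r g x) U r (mix W x y) ↔ Bad (terms W r g x) U r y) := by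
      intro U
      have hF : ∀ T ∈ terms W r g x, T.1 ⊆ W := fun T hT => (mem_terms.1 hT).1
      constructor
      · intro hb
        refine hb.congr_in hF ?_
        intro e he
        simp only [mix, he, if_true]
      · intro hb
        refine hb.congr_in hF ?_
        intro e he
        simp only [mix, he, if_true]
    simp only [hh, h3, h4]
  have h5 : ∀ x, ∑ y : Hyp V s, h (mix W x y) ≤ η * Fintype.card (Hyp V s) := by
    intro x
    simp_rw [h2 x]
    refine switch hs hr ?_ hp0 hp1 W
    intro T hT
    exact (mem_terms.1 hT).2.1
  have h6 := mix_sum W h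
  have h7 : (Fintype.card (Hyp V s) : ℝ) * ∑ x : Hyp V s, h x ≤
      Fintype.card (Hyp V s) * (η * Fintype.card (Hyp V s)) := by
    rw [← h6]
    calc ∑ x : Hyp V s, ∑ y : Hyp V s, h (mix W x y)
        ≤ ∑ _x : Hyp V s, η * Fintype.card (Hyp V s) := Finset.sum_le_sum fun x _ => h5 x
      _ = _ := by rw [Finset.sum_const, nsmul_eq_mul, Finset.card_univ]
  have h8 : (0 : ℝ) < Fintype.card (Hyp V s) := by
    exact_mod_cast Fintype.card_pos
  exact (Finset.sum_le_sum fun x _ => h1 x).trans (le_of_mul_le_mul_left h7 h8)

/-- All gates up to level `j` have small certificates. -/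
def Good {ι : Type} {d : ℕ} (C : Circuit (Hyp V s) ι d) (v : ι → Hyp V s → Bool) (r j : ℕ)
    (W : Finset V) (x : Hyp V s) : Prop := ∀ i, C.dep i ≤ j → Cert W x (v i) r

open Classical in
/-- The iterated restriction argument. -/
lemma levels {ι : Type} [Fintype ι] {d : ℕ} (C : Circuit (Hyp V s) ι d)
    (v : ι → Hyp V s → Bool) (hv : C.Vals v) {r : ℕ} (hs : 1 ≤ s) (hr : 1 ≤ r)
    (hloc : C.LocalInputs r) {p : ℝ} (hp0 : 0 ≤ p) (hp1 : p ≤ 1 / 2) (j : ℕ) :
    ∑ x : Hyp V s, bern (p ^ j) Finset.univ (fun W => if Good C v r j W x then (0 : ℝ) else 1) ≤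
      ((Finset.univ : Finset ι).filter (fun i => C.dep i ≤ j ∧ 1 ≤ C.dep i)).card *
      ((∑ t ∈ Finset.Ioc r (r + r), (4 * r * p) ^ t * 4 ^ (t.choose s)) *
        Fintype.card (Hyp V s)) := by
  set K : ℝ := (∑ t ∈ Finset.Ioc r (r + r), (4 * (r : ℝ) * p) ^ t * 4 ^ (t.choose s)) *
        Fintype.card (Hyp V s) with hK
  have hK0 : 0 ≤ K := by positivity
  induction j with
  | zero =>
    have hgood : ∀ W x, Good C v r 0 W x := by
      intro W x i hi
      have hi0 : C.dep i = 0 := by omega
      cases hg : C.gate i with
      | inp f =>
        have h1 : v i = f := by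
          funext y
          have := hv i y
          rw [hg] at this
          exact this
        rw [h1]
        exact (hloc i f hg).cert W x
      | all A =>
        have hA : ∀ q, q ∉ A := by
          intro q hq
          have := C.dep_all i A hg q hq
          omega
        have h1 : v i = fun _ => true := by
          funext y
          have := hv i y
          rw [hg] at this
          exact this.2 (fun q hq => absurd hq (hA q))
        rw [h1]
        exact fun x' _ => ⟨∅, by simp, by simp, fun _ _ _ => rfl⟩
      | any A =>
        have hA : ∀ q, q ∉ A := by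
          intro q hq
          have := C.dep_any i A hg q hq
          omega
        have h1 : v i = fun _ => false := by
          funext y
          have h2 := hv i y
          rw [hg] at h2
          by_contra h3
          have h4 : v i y = true := by simpa using h3
          obtain ⟨q, hq, _⟩ := h2.1 h4
          exact hA q hq
        rw [h1]
        exact fun x' _ => ⟨∅, by simp, by simp, fun _ _ _ => rfl⟩
    have h0 : ∑ x : Hyp V s, bern (p ^ 0) Finset.univ
        (fun W => if Good C v r 0 W x then (0 : ℝ) else 1) = 0 := by
      refine Finset.sum_eq_zero fun x _ => ?_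
      have : (fun W => if Good C v r 0 W x then (0 : ℝ) else 1) = fun _ => 0 := by
        funext W
        simp [hgood W x]
      rw [this, bern_const]
    rw [h0]
    positivity
  | succ j ih =>
    have hp1' : p ≤ 1 := by linarith
    have hpj0 : 0 ≤ p ^ j := pow_nonneg hp0 _
    have hpj1 : p ^ j ≤ 1 := pow_le_one₀ hp0 hp1'
    set N := (Finset.univ : Finset ι).filter (fun i => C.dep i = j + 1) with hN
    set f : ι → Finset V → Hyp V s → ℝ := fun i W x =>
      bern p W (fun U => if Good C v r j W x ∧ ¬ Cert U x (v i) r then (1 : ℝ) else 0) with hf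
    have h1 : ∀ x, bern (p ^ (j + 1)) Finset.univ
        (fun W => if Good C v r (j + 1) W x then (0 : ℝ) else 1) ≤
        bern (p ^ j) Finset.univ (fun W => (if Good C v r j W x then (0 : ℝ) else 1) +
          ∑ i ∈ N, f i W x) := by
      intro x
      rw [pow_succ, ← bern_bern]
      refine bern_mono hpj0 hpj1 _ fun W _ => ?_
      have h2 : bern p W (fun U => (if Good C v r j W x then (0 : ℝ) else 1) +
          ∑ i ∈ N, if Good C v r j W x ∧ ¬ Cert U x (v i) r then (1 : ℝ) else 0) =
          (if Good C v r j W x then (0 : ℝ) else 1) + ∑ i ∈ N, f i W x := by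
        rw [bern_add, bern_const, bern_sum]
      rw [← h2]
      refine bern_mono hp0 hp1' W fun U hU => ?_
      have hnn : 0 ≤ ∑ i ∈ N, if Good C v r j W x ∧ ¬ Cert U x (v i) r then (1 : ℝ) else 0 :=
        Finset.sum_nonneg fun i _ => by split_ifs <;> norm_num
      by_cases hG : Good C v r j W x
      · by_cases hG1 : Good C v r (j + 1) U x
        · simp only [hG1, hG, if_true, zero_add]
          have := hnn
          simp only [hG, true_and] at this
          simpa using this
        · have hex : ∃ i, C.dep i ≤ j + 1 ∧ ¬ Cert U x (v i) r := by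
            by_contra hc
            apply hG1
            intro i hi
            by_contra hc'
            exact hc ⟨i, hi, hc'⟩
          obtain ⟨i, hi, hci⟩ := hex
          have hij : C.dep i = j + 1 := by
            by_contra hc
            exact hci ((hG i (by omega)).mono hU)
          have hiN : i ∈ N := by simp [hN, hij]
          have h3 : (1 : ℝ) ≤ ∑ i ∈ N, if Good C v r j W x ∧ ¬ Cert U x (v i) r
              then (1 : ℝ) else 0 := by
            have h4 := Finset.single_le_sum (s := N)
              (f := fun i => if Good C v r j W x ∧ ¬ Cert U x (v i) r then (1 : ℝ) else 0)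
              (fun i _ => by split_ifs <;> norm_num) hiN
            simp only [hG, hci, not_false_eq_true, and_self, if_true] at h4
            simpa [hG] using h4
          simp only [hG1, if_false, hG, if_true, zero_add]
          simpa [hG] using h3
      · simp only [hG, if_false]
        have h3 : (if Good C v r (j + 1) U x then (0 : ℝ) else 1) ≤ 1 := by
          split_ifs <;> norm_num
        have h5 := hnn
        simp only [hG, false_and, if_false] at h5
        simp only [false_and, if_false]
        linarith
    have h2 : ∀ i ∈ N, ∀ W, ∑ x : Hyp V s, f i W x ≤ K := by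
      intro i hi W
      have hi' : C.dep i = j + 1 := by simpa [hN] using hi
      cases hg : C.gate i with
      | inp g =>
        have h3 : v i = g := by
          funext y
          have := hv i y
          rw [hg] at this
          exact this
        have h4 : ∀ x, f i W x = 0 := by
          intro x
          have h5 : ∀ U, Cert U x (v i) r := by
            intro U
            rw [h3]
            exact (hloc i g hg).cert U x
          simp only [hf, h5, not_true_eq_false, and_false, if_false]
          exact bern_const p W 0
        simp only [h4, Finset.sum_const_zero]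
        exact hK0
      | all A =>
        have hcert : ∀ U x, (¬ Cert U x (v i) r ↔ ¬ Cert U x (fun y => !(v i y)) r) := by
          intro U x
          refine not_congr ⟨fun h => h.not, fun h => ?_⟩
          have := h.not
          simpa using this
        have h3 := gate_step (ι := ι) (r := r) hs hr hp0 hp1 W v (fun y => !(v i y))
          (A.image (fun q => (q.1, !q.2))) (by
            intro x
            have h4 := hv i x
            rw [hg] at h4
            change (v i x = true ↔ ∀ p ∈ A, v p.1 x = p.2) at h4
            constructor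
            · intro h5
              have h6 : ¬ (v i x = true) := by simpa using h5
              rw [h4] at h6
              push Not at h6
              obtain ⟨q, hq, hqx⟩ := h6
              refine ⟨(q.1, !q.2), Finset.mem_image_of_mem _ hq, ?_⟩
              simp only
              cases h7 : v q.1 x <;> cases h8 : q.2 <;> simp_all
            · rintro ⟨q', hq', hqx⟩
              obtain ⟨q, hq, rfl⟩ := Finset.mem_image.1 hq'
              have h6 : ¬ (v i x = true) := by
                rw [h4]
                intro h7
                have h8 := h7 q hq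
                simp only at hqx
                rw [h8] at hqx
                cases h9 : q.2 <;> simp [h9] at hqx
              simpa using h6)
          (fun x => Good C v r j W x) (by
            intro x hx q' hq'
            obtain ⟨q, hq, rfl⟩ := Finset.mem_image.1 hq'
            have := C.dep_all i A hg q hq
            exact hx q.1 (by omega))
        simp only [hf]
        simp_rw [hcert]
        exact h3
      | any A =>
        have h3 := gate_step (ι := ι) (r := r) hs hr hp0 hp1 W v (v i) A (by
            intro x
            have h4 := hv i x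
            rw [hg] at h4
            exact h4)
          (fun x => Good C v r j W x) (by
            intro x hx q hq
            have := C.dep_any i A hg q hq
            exact hx q.1 (by omega))
        exact h3
    have h3 : ∑ x : Hyp V s, bern (p ^ j) Finset.univ (fun W =>
        (if Good C v r j W x then (0 : ℝ) else 1) + ∑ i ∈ N, f i W x) =
        ∑ x : Hyp V s, bern (p ^ j) Finset.univ (fun W =>
          (if Good C v r j W x then (0 : ℝ) else 1)) +
        ∑ i ∈ N, bern (p ^ j) Finset.univ (fun W => ∑ x : Hyp V s, f i W x) := by
      simp_rw [bern_add, bern_sum]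
      rw [Finset.sum_add_distrib]
      congr 1
      rw [Finset.sum_comm]
    have h4 : ∀ i ∈ N, bern (p ^ j) Finset.univ (fun W => ∑ x : Hyp V s, f i W x) ≤ K := by
      intro i hi
      have := bern_mono hpj0 hpj1 Finset.univ (f := fun W => ∑ x : Hyp V s, f i W x)
        (g := fun _ => K) (fun W _ => h2 i hi W)
      rwa [bern_const] at this
    have hcard : ((Finset.univ : Finset ι).filter (fun i => C.dep i ≤ j + 1 ∧ 1 ≤ C.dep i)).card =
        ((Finset.univ : Finset ι).filter (fun i => C.dep i ≤ j ∧ 1 ≤ C.dep i)).card + N.card := by
      rw [← Finset.card_union_of_disjoint]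
      · congr 1
        ext i
        simp only [hN, Finset.mem_union, Finset.mem_filter, Finset.mem_univ, true_and]
        omega
      · rw [Finset.disjoint_left]
        intro i h5 h6
        simp only [hN, Finset.mem_filter, Finset.mem_univ, true_and] at h5 h6
        omega
    rw [hcard]
    push_cast
    rw [add_mul]
    calc _ ≤ ∑ x : Hyp V s, bern (p ^ j) Finset.univ (fun W =>
        (if Good C v r j W x then (0 : ℝ) else 1) + ∑ i ∈ N, f i W x) :=
          Finset.sum_le_sum fun x _ => h1 x
      _ = _ := h3
      _ ≤ _ := by
          refine add_le_add ih ?_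
          calc _ ≤ ∑ _i ∈ N, K := Finset.sum_le_sum h4
            _ = _ := by rw [Finset.sum_const, nsmul_eq_mul]

end Pool.Agent.helper3.HPC
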