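import Pool.Agent.helper3.HPC.Path

/-!
# Encoding of canonical paths
-/

namespace Pool.Agent.helper3.HPC

open Finset

set_option linter.unusedSectionVars false

variable {V : Type} [Fintype V] [DecidableEq V] {s : ℕ}

/-- One step of the decoder. -/
def DStep (F : List (Finset V × Hyp V s)) (U' : Finset V) (a b : Finset V × Hyp V s) : Prop :=
  ∃ T, fst F U' ∅ a.2 = some T ∧ ∃ D : Finset V, D ⊆ T.1 ∧ D.Nonempty ∧ Disjoint D a.1 ∧
    b.1 = a.1 ∪ D ∧ ∀ e : Edge V s, ¬ (e.1 ⊆ b.1 ∧ ¬ e.1 ⊆ a.1) → b.2 e = a.2 e

/-- The decoder's reachability relation. -/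
abbrev Dec (F : List (Finset V × Hyp V s)) (U' : Finset V) :
    Finset V × Hyp V s → Finset V × Hyp V s → Prop := Relation.ReflTransGen (DStep F U')

/-- Every canonical path is decoded from some hypergraph. -/
lemma exists_code {F : List (Finset V × Hyp V s)} {U' R : Finset V} {y : Hyp V s} (hs : 1 ≤ s)
    (hd : Disjoint R U') {R' : Finset V} (h : Reach F (U' ∪ R) y R') :
    R' ⊆ R → ∀ z : Hyp V s, Off (U' ∪ R) y z → Agr R' y z →
      ∃ y' : Hyp V s, Dec F U' (∅, y') (R', z) := by
  classical
  induction h with
  | nil =>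
    intro _ z _ _
    exact ⟨z, Relation.ReflTransGen.refl⟩
  | @step R₁ T h h1 h2 ih =>
    intro hsub z hz ha
    have hR₁ : R₁ ⊆ R := Finset.subset_union_left.trans hsub
    have hTU : T.1 ∩ (U' ∪ R) ⊆ R := Finset.subset_union_right.trans hsub
    set z' : Hyp V s := fun e =>
      if (e.1 ⊆ R₁ ∪ (T.1 ∩ (U' ∪ R)) ∧ ¬ e.1 ⊆ R₁) ∧ e.1 ⊆ T.1 then T.2 e else z e with hz'
    have hoff : Off (U' ∪ R) y z' := by
      intro e he
      have : ¬ ((e.1 ⊆ R₁ ∪ (T.1 ∩ (U' ∪ R)) ∧ ¬ e.1 ⊆ R₁) ∧ e.1 ⊆ T.1) := by
        rintro ⟨⟨h3, _⟩, _⟩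
        exact he ((h3.trans hsub).trans Finset.subset_union_right)
      simp only [hz', this, if_false]
      exact hz e he
    have hagr : Agr R₁ y z' := by
      intro e he
      have : ¬ ((e.1 ⊆ R₁ ∪ (T.1 ∩ (U' ∪ R)) ∧ ¬ e.1 ⊆ R₁) ∧ e.1 ⊆ T.1) := by
        rintro ⟨⟨_, h3⟩, _⟩
        exact h3 he
      simp only [hz', this, if_false]
      exact ha e (he.trans Finset.subset_union_left)
    obtain ⟨y', hy'⟩ := ih hR₁ z' hoff hagr
    refine ⟨y', Relation.ReflTransGen.tail hy' ?_⟩
    obtain ⟨hTF, hTok⟩ := fst_some h1
    have hne : ∀ e : Edge V s, e.1 ⊆ R → ¬ e.1 ⊆ U' := by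
      intro e he he'
      have : e.1 ⊆ ∅ := by
        intro v hv
        exact absurd (he' hv) (Finset.disjoint_left.1 hd (he hv))
      have h4 : e.1 = ∅ := Finset.subset_empty.1 this
      have h5 := e.2
      rw [h4] at h5
      simp at h5
      omega
    have hnoR : ∀ e : Edge V s, ¬ e.1 ⊆ (∅ : Finset V) := by
      intro e he
      have h4 : e.1 = ∅ := Finset.subset_empty.1 he
      have h5 := e.2
      rw [h4] at h5
      simp at h5
      omega
    refine ⟨T, ?_, (T.1 ∩ (U' ∪ R)) \ R₁, ?_, ?_, ?_, ?_, ?_⟩
    · refine fst_congr_some h1 ?_ ?_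
      · intro T' _ hT' e he hc
        have heU' : ¬ e.1 ⊆ U' := by
          rcases hc with hc | hc
          · exact fun h' => hc (h'.trans Finset.subset_union_left)
          · exact hne e (hc.trans hR₁)
        have h6 := hT' e he (Or.inl heU')
        rw [← h6]
        rcases hc with hc | hc
        · exact hoff e hc
        · exact hagr e hc
      · intro e he hc
        have heU' : ¬ e.1 ⊆ U' := by
          rcases hc with hc | hc
          · exact hc
          · exact absurd hc (hnoR e)
        show z' e = T.2 e
        by_cases hU : e.1 ⊆ U' ∪ R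
        · have h7 : e.1 ⊆ R₁ ∪ (T.1 ∩ (U' ∪ R)) :=
            (Finset.subset_inter he hU).trans Finset.subset_union_right
          by_cases h8 : e.1 ⊆ R₁
          · rw [← hagr e h8]
            exact hTok e he (Or.inr h8)
          · simp only [hz', h7, h8, he, not_false_eq_true, and_self, if_true]
        · rw [← hoff e hU]
          exact hTok e he (Or.inl hU)
    · exact Finset.sdiff_subset.trans Finset.inter_subset_left
    · rw [Finset.nonempty_iff_ne_empty]
      intro h9
      exact h2 (Finset.sdiff_eq_empty_iff_subset.1 h9)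
    · exact Finset.sdiff_disjoint
    · simp
    · intro e he
      have : ¬ ((e.1 ⊆ R₁ ∪ (T.1 ∩ (U' ∪ R)) ∧ ¬ e.1 ⊆ R₁) ∧ e.1 ⊆ T.1) := fun h' => he h'.1
      simp only [hz', this, if_false]

lemma DStep.lt {F : List (Finset V × Hyp V s)} {U' : Finset V} {a b : Finset V × Hyp V s}
    (h : DStep F U' a b) : a.1.card < b.1.card := by
  obtain ⟨T, _, D, _, hne, hd, hb, _⟩ := h
  rw [hb, Finset.card_union_of_disjoint hd.symm]
  have := hne.card_pos
  omega

lemma Dec.le {F : List (Finset V × Hyp V s)} {U' : Finset V} {a b : Finset V × Hyp V s}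
    (h : Dec F U' a b) : a.1.card ≤ b.1.card := by
  induction h with
  | refl => exact le_rfl
  | tail _ h2 ih => exact ih.trans h2.lt.le

/-- The number of edges inside `R`. -/
lemma card_edges (R : Finset V) :
    ((Finset.univ : Finset (Edge V s)).filter (fun e => e.1 ⊆ R)).card = R.card.choose s := by
  classical
  rw [← Finset.card_powersetCard]
  refine Finset.card_bij' (fun e _ => e.1)
    (fun e he => (⟨e, (Finset.mem_powersetCard.1 he).2⟩ : Edge V s)) ?_ ?_ ?_ ?_
  · intro e he
    simp only [Finset.mem_filter, Finset.mem_univ, true_and] at he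
    exact Finset.mem_powersetCard.2 ⟨he, e.2⟩
  · intro e he
    simp only [Finset.mem_filter, Finset.mem_univ, true_and]
    exact (Finset.mem_powersetCard.1 he).1
  · intro e he
    rfl
  · intro e he
    rfl

/-- Number of hypergraphs that agree with a given one outside a given set of edges. -/
lemma card_agree (A : Finset (Edge V s)) (z : Hyp V s) :
    (Fintype.card {z' : Hyp V s // ∀ e, e ∉ A → z' e = z e}) = 2 ^ A.card := by
  classical
  have h : Fintype.card {z' : Hyp V s // ∀ e, e ∉ A → z' e = z e} =
      (Fintype.piFinset (fun e : Edge V s => if e ∈ A then (Finset.univ : Finset Bool)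
        else {z e})).card := by
    rw [Fintype.card_subtype]
    congr 1
    ext z'
    simp only [Finset.mem_filter, Finset.mem_univ, true_and, Fintype.mem_piFinset]
    constructor
    · intro h e
      by_cases he : e ∈ A
      · simp [he]
      · simp [he, h e he]
    · intro h e he
      have := h e
      simpa [he] using this
  rw [h, Fintype.card_piFinset]
  have : ∀ e : Edge V s, (if e ∈ A then (Finset.univ : Finset Bool) else {z e}).card
      = if e ∈ A then 2 else 1 := by
    intro e
    by_cases he : e ∈ A <;> simp [he]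
  simp_rw [this]
  rw [Finset.prod_ite]
  simp

open Classical in
/-- The states decoded from `a` after revealing `t` further vertices. -/
noncomputable def codes (F : List (Finset V × Hyp V s)) (U' : Finset V) (t : ℕ)
    (a : Finset V × Hyp V s) : Finset (Finset V × Hyp V s) :=
  Finset.univ.filter (fun b => Dec F U' a b ∧ b.1.card = a.1.card + t)

lemma sum_small {w t : ℕ} (hw : 1 ≤ w) {A : Finset V} (hA : A.card ≤ w)
    (𝒟 : Finset (Finset V)) (h𝒟 : ∀ D ∈ 𝒟, D ⊆ A ∧ D.Nonempty ∧ D.card ≤ t) :
    ∑ D ∈ 𝒟, (2 * (w : ℝ)) ^ (t - D.card) ≤ (2 * (w : ℝ)) ^ t := by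
  have hw0 : (0 : ℝ) < w := by exact_mod_cast hw
  have h2w : (0 : ℝ) < 2 * w := by linarith
  set c : ℝ := 1 / (2 * w) with hc
  have hc0 : 0 < c := by positivity
  have h1 : ∀ D ∈ 𝒟, (2 * (w : ℝ)) ^ (t - D.card) = (2 * (w : ℝ)) ^ t * c ^ D.card := by
    intro D hD
    have h3 := (h𝒟 D hD).2.2
    rw [hc, one_div, inv_pow, ← div_eq_mul_inv, eq_div_iff (pow_pos h2w _).ne', ← pow_add]
    congr 1
    omega
  rw [Finset.sum_congr rfl h1, ← Finset.mul_sum]
  have h4 : ∑ D ∈ 𝒟, c ^ D.card ≤ 1 := by
    have h5 : 𝒟 ⊆ A.powerset.erase ∅ := by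
      intro D hD
      obtain ⟨h6, h7, _⟩ := h𝒟 D hD
      rw [Finset.mem_erase]
      exact ⟨h7.ne_empty, Finset.mem_powerset.2 h6⟩
    have h6 : ∑ D ∈ 𝒟, c ^ D.card ≤ ∑ D ∈ A.powerset.erase ∅, c ^ D.card :=
      Finset.sum_le_sum_of_subset_of_nonneg h5 (fun _ _ _ => by positivity)
    have h7 : ∑ D ∈ A.powerset.erase ∅, c ^ D.card + c ^ (∅ : Finset V).card
        = ∑ D ∈ A.powerset, c ^ D.card :=
      Finset.sum_erase_add _ _ (Finset.empty_mem_powerset A)
    have h8 : ∑ D ∈ A.powerset, c ^ D.card = (c + 1) ^ A.card := by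
      have := Finset.sum_pow_mul_eq_add_pow c (1 : ℝ) A
      simpa using this
    have h9 : (c + 1) ^ A.card ≤ 2 := by
      calc (c + 1) ^ A.card ≤ (c + 1) ^ w := pow_le_pow_right₀ (by linarith) hA
        _ ≤ (Real.exp c) ^ w := by
            refine pow_le_pow_left₀ (by linarith) ?_ _
            exact Real.add_one_le_exp c
        _ = Real.exp (w * c) := by rw [← Real.exp_nat_mul]
        _ = Real.exp (1 / 2) := by
            congr 1
            rw [hc]; field_simp
        _ ≤ 2 := by
            have h10 : Real.exp (1 / 2) * Real.exp (1 / 2) = Real.exp 1 := by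
              rw [← Real.exp_add]; norm_num
            have h11 := Real.exp_one_lt_d9
            have h12 := Real.exp_pos (1 / 2 : ℝ)
            nlinarith
    rw [Finset.card_empty, pow_zero] at h7
    linarith
  calc (2 * (w : ℝ)) ^ t * ∑ D ∈ 𝒟, c ^ D.card ≤ (2 * (w : ℝ)) ^ t * 1 :=
        mul_le_mul_of_nonneg_left h4 (by positivity)
    _ = _ := by ring

lemma card_codes {F : List (Finset V × Hyp V s)} {w : ℕ} (hw1 : 1 ≤ w)
    (hw : ∀ T ∈ F, T.1.card ≤ w) (U' : Finset V) (t : ℕ) :
    ∀ a : Finset V × Hyp V s, ((codes F U' t a).card : ℝ) * 2 ^ (a.1.card.choose s) ≤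
      (2 * (w : ℝ)) ^ t * 2 ^ ((a.1.card + t).choose s) := by
  classical
  induction t using Nat.strong_induction_on with
  | _ t ih =>
    intro a
    rcases Nat.eq_zero_or_pos t with ht | ht
    · subst ht
      have h1 : codes F U' 0 a ⊆ {a} := by
        intro b hb
        simp only [codes, Finset.mem_filter, Finset.mem_univ, true_and, add_zero] at hb
        rw [Finset.mem_singleton]
        rcases Relation.ReflTransGen.cases_head hb.1 with h2 | ⟨c, h2, h3⟩
        · exact h2.symm
        · have h4 := h2.lt
          have h5 : c.1.card ≤ b.1.card := Dec.le h3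
          omega
      have h2 : ((codes F U' 0 a).card : ℝ) ≤ 1 := by
        have := Finset.card_le_card h1
        simp at this
        exact_mod_cast this
      have h3 : (0 : ℝ) ≤ 2 ^ (a.1.card.choose s) := by positivity
      simp only [pow_zero, one_mul, add_zero]
      nlinarith
    · cases hf : fst F U' ∅ a.2 with
      | none =>
        have h1 : codes F U' t a = ∅ := by
          rw [Finset.eq_empty_iff_forall_notMem]
          intro b hb
          simp only [codes, Finset.mem_filter, Finset.mem_univ, true_and] at hb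
          rcases Relation.ReflTransGen.cases_head hb.1 with h2 | ⟨c, ⟨T, h2, _⟩, h3⟩
          · rw [← h2] at hb; omega
          · rw [hf] at h2; cases h2
        rw [h1]
        simp only [Finset.card_empty, Nat.cast_zero, zero_mul]
        positivity
      | some T =>
        have hTw := hw T (fst_some hf).1
        set 𝒟 := T.1.powerset.filter (fun D => D.Nonempty ∧ Disjoint D a.1 ∧ D.card ≤ t) with h𝒟
        set A : Finset V → Finset (Edge V s) :=
          fun D => Finset.univ.filter (fun e => e.1 ⊆ a.1 ∪ D ∧ ¬ e.1 ⊆ a.1) with hA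
        set Z : Finset V → Finset (Hyp V s) :=
          fun D => Finset.univ.filter (fun z' => ∀ e, e ∉ A D → z' e = a.2 e) with hZ
        have hsub : codes F U' t a ⊆
            𝒟.biUnion (fun D => (Z D).biUnion (fun z' => codes F U' (t - D.card) (a.1 ∪ D, z'))) := by
          intro b hb
          simp only [codes, Finset.mem_filter, Finset.mem_univ, true_and] at hb
          obtain ⟨hb1, hb2⟩ := hb
          rcases Relation.ReflTransGen.cases_head hb1 with h2 | ⟨c, ⟨T', h2, D, hD1, hD2, hD3, hD4, hD5⟩, h3⟩
          · rw [← h2] at hb2; omega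
          · rw [hf] at h2
            have hTT : T = T' := by simpa using h2
            subst hTT
            have h5 : c.1.card ≤ b.1.card := Dec.le h3
            have h6 : c.1.card = a.1.card + D.card := by
              rw [hD4, Finset.card_union_of_disjoint hD3.symm]
            rw [Finset.mem_biUnion]
            refine ⟨D, ?_, ?_⟩
            · rw [h𝒟, Finset.mem_filter]
              exact ⟨Finset.mem_powerset.2 hD1, hD2, hD3, by omega⟩
            · rw [Finset.mem_biUnion]
              refine ⟨c.2, ?_, ?_⟩
              · simp only [hZ, hA, Finset.mem_filter, Finset.mem_univ, true_and]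
                intro e he
                rw [hD4] at hD5
                exact hD5 e he
              · simp only [codes, Finset.mem_filter, Finset.mem_univ, true_and]
                have h7 : (a.1 ∪ D, c.2) = c := by rw [← hD4]
                rw [h7]
                refine ⟨h3, ?_⟩
                rw [← hD4]
                omega
        have hcard : ((codes F U' t a).card : ℝ) ≤
            ∑ D ∈ 𝒟, ∑ z' ∈ Z D, ((codes F U' (t - D.card) (a.1 ∪ D, z')).card : ℝ) := by
          have h1 := Finset.card_le_card hsub
          have h2 : (𝒟.biUnion (fun D => (Z D).biUnion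
              (fun z' => codes F U' (t - D.card) (a.1 ∪ D, z')))).card ≤
              ∑ D ∈ 𝒟, ∑ z' ∈ Z D, (codes F U' (t - D.card) (a.1 ∪ D, z')).card :=
            Finset.card_biUnion_le.trans (Finset.sum_le_sum fun D _ => Finset.card_biUnion_le)
          exact_mod_cast h1.trans h2
        have hZc : ∀ D ∈ 𝒟, ((Z D).card : ℝ) * 2 ^ (a.1.card.choose s)
            = 2 ^ ((a.1 ∪ D).card.choose s) := by
          intro D _
          have h1 : (Z D).card = 2 ^ (A D).card := by
            have := card_agree (A D) a.2
            rw [Fintype.card_subtype] at this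
            exact this
          have h2 : (A D).card + a.1.card.choose s = (a.1 ∪ D).card.choose s := by
            rw [← card_edges (s := s) a.1, ← card_edges (s := s) (a.1 ∪ D)]
            rw [← Finset.card_union_of_disjoint]
            · congr 1
              ext e
              simp only [hA, Finset.mem_union, Finset.mem_filter, Finset.mem_univ, true_and]
              constructor
              · rintro (h | h)
                · exact h.1
                · exact h.trans Finset.subset_union_left
              · intro h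
                by_cases h' : e.1 ⊆ a.1
                · exact Or.inr h'
                · exact Or.inl ⟨h, h'⟩
            · rw [Finset.disjoint_left]
              intro e he he'
              simp only [hA, Finset.mem_filter, Finset.mem_univ, true_and] at he he'
              exact he.2 he'
          rw [h1, ← h2, pow_add]
          push_cast
          ring
        have hstep : ∀ D ∈ 𝒟, (∑ z' ∈ Z D, ((codes F U' (t - D.card) (a.1 ∪ D, z')).card : ℝ))
            * 2 ^ (a.1.card.choose s) ≤
            (2 * (w : ℝ)) ^ (t - D.card) * 2 ^ ((a.1.card + t).choose s) := by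
          intro D hD
          have hD' := hD
          rw [h𝒟, Finset.mem_filter, Finset.mem_powerset] at hD'
          obtain ⟨_, hDn, hDd, hDt⟩ := hD'
          have hDpos := hDn.card_pos
          have h1 : ∀ z' ∈ Z D, ((codes F U' (t - D.card) (a.1 ∪ D, z')).card : ℝ) ≤
              (2 * (w : ℝ)) ^ (t - D.card) * 2 ^ ((a.1.card + t).choose s) /
                2 ^ ((a.1 ∪ D).card.choose s) := by
            intro z' _
            have h2 := ih (t - D.card) (by omega) (a.1 ∪ D, z')
            rw [le_div_iff₀ (by positivity)]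
            have h3 : (a.1 ∪ D).card + (t - D.card) = a.1.card + t := by
              rw [Finset.card_union_of_disjoint hDd.symm]; omega
            simp only [h3] at h2
            exact h2
          have h2 := Finset.sum_le_sum h1
          rw [Finset.sum_const, nsmul_eq_mul] at h2
          have h3 := hZc D hD
          have h4 : (0 : ℝ) < 2 ^ ((a.1 ∪ D).card.choose s) := by positivity
          have h5 : (0 : ℝ) < 2 ^ (a.1.card.choose s) := by positivity
          calc _ ≤ (((Z D).card : ℝ) * ((2 * (w : ℝ)) ^ (t - D.card) * 2 ^ ((a.1.card + t).choose s) /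
                2 ^ ((a.1 ∪ D).card.choose s))) * 2 ^ (a.1.card.choose s) :=
                mul_le_mul_of_nonneg_right h2 h5.le
            _ = (((Z D).card : ℝ) * 2 ^ (a.1.card.choose s)) * ((2 * (w : ℝ)) ^ (t - D.card)
                * 2 ^ ((a.1.card + t).choose s)) / 2 ^ ((a.1 ∪ D).card.choose s) := by ring
            _ = _ := by
                rw [h3]
                field_simp
        have h𝒟' : ∀ D ∈ 𝒟, D ⊆ T.1 ∧ D.Nonempty ∧ D.card ≤ t := by
          intro D hD
          rw [h𝒟, Finset.mem_filter, Finset.mem_powerset] at hD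
          exact ⟨hD.1, hD.2.1, hD.2.2.2⟩
        have hfin := sum_small hw1 hTw 𝒟 h𝒟'
        calc ((codes F U' t a).card : ℝ) * 2 ^ (a.1.card.choose s)
            ≤ (∑ D ∈ 𝒟, ∑ z' ∈ Z D, ((codes F U' (t - D.card) (a.1 ∪ D, z')).card : ℝ))
              * 2 ^ (a.1.card.choose s) := mul_le_mul_of_nonneg_right hcard (by positivity)
          _ = ∑ D ∈ 𝒟, (∑ z' ∈ Z D, ((codes F U' (t - D.card) (a.1 ∪ D, z')).card : ℝ))
              * 2 ^ (a.1.card.choose s) := by rw [Finset.sum_mul]
          _ ≤ ∑ D ∈ 𝒟, (2 * (w : ℝ)) ^ (t - D.card) * 2 ^ ((a.1.card + t).choose s) :=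
              Finset.sum_le_sum hstep
          _ = (∑ D ∈ 𝒟, (2 * (w : ℝ)) ^ (t - D.card)) * 2 ^ ((a.1.card + t).choose s) := by
              rw [Finset.sum_mul]
          _ ≤ _ := mul_le_mul_of_nonneg_right hfin (by positivity)

end Pool.Agent.helper3.HPC
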