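import Pool.Agent.helper3.HPC.Plant

/-!
# The finite form of the lower bound
-/

namespace Pool.Agent.helper3.HPC

open Finset

set_option linter.unusedSectionVars false

variable {V : Type} [Fintype V] [DecidableEq V] {s : ℕ}
variable {κ : Type} [Fintype κ] [DecidableEq κ]

/-- Probability of acceptance for a uniformly random hypergraph. -/
noncomputable def acc0 (f : Hyp V s → Bool) : ℝ :=
  (∑ x : Hyp V s, ind (f x)) / Fintype.card (Hyp V s)

/-- Probability of acceptance for a planted hypergraph. -/
noncomputable def acc1 (blk : V → κ) (f : Hyp V s → Bool) : ℝ :=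
  (∑ g ∈ tv blk Finset.univ, ∑ x : Hyp V s, ind (f (plant (Finset.univ.image g) x))) /
    ((tv blk Finset.univ).card * Fintype.card (Hyp V s))

open Classical in
theorem finite_bound (hs : 1 ≤ s) (blk : V → κ) (f : Hyp V s → Bool) {q : ℝ} (hq0 : 0 ≤ q)
    (hq1 : q ≤ 1) {N m r : ℕ} (hm : 1 ≤ m) (hN1 : 1 ≤ N)
    (hN : ∀ j, ((Finset.univ : Finset V).filter (fun v => blk v = j)).card = N)
    (G : Finset V → Hyp V s → Prop) (hG : ∀ U x, G U x → Cert U x f r) :
    |acc1 blk f - acc0 f| * (1 - Fintype.card κ * (2 ^ m * (1 - q / 2) ^ N)) ≤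
      (∑ x : Hyp V s, bern q Finset.univ (fun U => if G U x then (0 : ℝ) else 1)) /
        Fintype.card (Hyp V s) + r / m + Fintype.card κ * (2 ^ m * (1 - q / 2) ^ N) := by
  set X : ℝ := (Fintype.card (Hyp V s) : ℝ) with hX
  have hX0 : 0 < X := by
    rw [hX]; exact_mod_cast Fintype.card_pos
  set P : ℝ := Fintype.card κ * (2 ^ m * (1 - q / 2) ^ N) with hP
  set T : ℝ := ((tv blk Finset.univ).card : ℝ) with hT
  have hTn : 0 < (tv blk (Finset.univ : Finset V)).card := by
    rw [card_tv]
    exact Finset.prod_pos fun j _ => by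
      have := hN j
      omega
  have hT0 : 0 < T := by
    rw [hT]
    exact_mod_cast hTn
  obtain ⟨g0, hg0⟩ : (tv blk (Finset.univ : Finset V)).Nonempty := Finset.card_pos.1 hTn
  have hg0' : ∀ j, blk (g0 j) = j := fun j => (mem_tv.1 hg0 j).2
  set c : ℝ := cw q blk g0 with hc
  have hcw : ∀ g ∈ tv blk (Finset.univ : Finset V), cw q blk g = c := by
    intro g hg
    exact cw_eq q blk (fun j => (mem_tv.1 hg j).2) hg0'
  set H : (κ → V) → ℝ := fun g => (∑ x : Hyp V s, ind (f (plant (Finset.univ.image g) x))) / X
    with hH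
  set Z : ℝ := bern q Finset.univ (fun U => (∑ _g ∈ tv blk U, (1 : ℝ)) / (tv blk U).card) with hZ
  have hcZ : c * T = Z := by
    have h1 := sum_cw q blk (fun _ => (1 : ℝ))
    rw [Finset.sum_congr rfl (fun g hg => by rw [hcw g hg])] at h1
    rw [hZ, ← h1, Finset.sum_const, nsmul_eq_mul]
    ring
  have h1 : acc1 blk f * Z = bern q Finset.univ (fun U => (∑ g ∈ tv blk U, H g) / (tv blk U).card)
      := by
    rw [← sum_cw q blk H]
    rw [Finset.sum_congr rfl (fun g hg => by rw [hcw g hg])]
    rw [← Finset.mul_sum, ← hcZ]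
    unfold acc1
    rw [← hT, ← hX]
    have : ∑ g ∈ tv blk Finset.univ, H g =
        (∑ g ∈ tv blk Finset.univ, ∑ x : Hyp V s, ind (f (plant (Finset.univ.image g) x))) / X := by
      rw [Finset.sum_div]
    rw [this]
    field_simp
  have h0 : acc0 f * Z =
      bern q Finset.univ (fun U => (∑ _g ∈ tv blk U, acc0 f) / (tv blk U).card) := by
    rw [hZ, ← bern_mul]
    refine bern_congr q _ fun U _ => ?_
    rw [Finset.sum_const, Finset.sum_const, nsmul_eq_mul, nsmul_eq_mul]
    ring
  have hdiff : (acc1 blk f - acc0 f) * Z =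
      bern q Finset.univ (fun U => (∑ g ∈ tv blk U, (H g - acc0 f)) / (tv blk U).card) := by
    rw [sub_mul, h1, h0]
    have : bern q Finset.univ (fun U => (∑ g ∈ tv blk U, H g) / (tv blk U).card) =
        bern q Finset.univ (fun U => (∑ g ∈ tv blk U, (H g - acc0 f)) / (tv blk U).card +
          (∑ _g ∈ tv blk U, acc0 f) / (tv blk U).card) := by
      refine bern_congr q _ fun U _ => ?_
      rw [Finset.sum_sub_distrib]
      ring
    rw [this, bern_add]
    ring
  have hHg : ∀ g, |H g - acc0 f| ≤
      (∑ x : Hyp V s, |ind (f (plant (Finset.univ.image g) x)) - ind (f x)|) / X := by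
    intro g
    have : H g - acc0 f =
        (∑ x : Hyp V s, (ind (f (plant (Finset.univ.image g) x)) - ind (f x))) / X := by
      rw [Finset.sum_sub_distrib, sub_div]
      rfl
    rw [this, abs_div, abs_of_pos hX0]
    exact div_le_div_of_nonneg_right (Finset.abs_sum_le_sum_abs _ _) hX0.le
  have hU : ∀ U : Finset V, |(∑ g ∈ tv blk U, (H g - acc0 f)) / ((tv blk U).card : ℝ)| ≤
      (∑ x : Hyp V s, (if G U x then (0 : ℝ) else 1)) / X + r / m +
        (if (∀ j, m ≤ (U.filter (fun v => blk v = j)).card) then (0 : ℝ) else 1) := by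
    intro U
    have h2 : |(∑ g ∈ tv blk U, (H g - acc0 f)) / ((tv blk U).card : ℝ)| ≤
        (∑ x : Hyp V s, change blk f U x) / X := by
      rw [abs_div, abs_of_nonneg (by positivity : (0 : ℝ) ≤ (tv blk U).card)]
      have h3 : |∑ g ∈ tv blk U, (H g - acc0 f)| ≤ ∑ g ∈ tv blk U,
          (∑ x : Hyp V s, |ind (f (plant (Finset.univ.image g) x)) - ind (f x)|) / X :=
        (Finset.abs_sum_le_sum_abs _ _).trans (Finset.sum_le_sum fun g _ => hHg g)
      refine (div_le_div_of_nonneg_right h3 (by positivity)).trans (le_of_eq ?_)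
      rw [← Finset.sum_div, Finset.sum_comm]
      unfold change
      rw [← Finset.sum_div]
      ring
    refine h2.trans ?_
    have h4 : ∀ x, change blk f U x ≤ (if G U x then (0 : ℝ) else 1) + (r / m +
        (if (∀ j, m ≤ (U.filter (fun v => blk v = j)).card) then (0 : ℝ) else 1)) := by
      intro x
      have hrm : (0 : ℝ) ≤ r / m := by positivity
      by_cases hGx : G U x
      · by_cases hb : ∀ j, m ≤ (U.filter (fun v => blk v = j)).card
        · have := change_small hs hm hb (hG U x hGx)
          simp only [hGx, hb, if_true, zero_add, add_zero, implies_true]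
          exact this
        · have := change_le_one blk f U x
          simp only [hGx, if_true]
          rw [if_neg hb]
          linarith
      · have := change_le_one blk f U x
        have h5 : (0 : ℝ) ≤
            (if (∀ j, m ≤ (U.filter (fun v => blk v = j)).card) then (0 : ℝ) else 1) := by
          split_ifs <;> norm_num
        simp only [hGx, if_false]
        linarith
    have h5 : ∑ x : Hyp V s, change blk f U x ≤
        ∑ x : Hyp V s, (if G U x then (0 : ℝ) else 1) + X * (r / m +
        (if (∀ j, m ≤ (U.filter (fun v => blk v = j)).card) then (0 : ℝ) else 1)) := by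
      refine (Finset.sum_le_sum fun x _ => h4 x).trans (le_of_eq ?_)
      rw [Finset.sum_add_distrib, Finset.sum_const, nsmul_eq_mul, Finset.card_univ]
    rw [div_le_iff₀ hX0]
    refine h5.trans (le_of_eq ?_)
    field_simp
    ring
  have hZabs : |(acc1 blk f - acc0 f) * Z| ≤
      (∑ x : Hyp V s, bern q Finset.univ (fun U => if G U x then (0 : ℝ) else 1)) / X + r / m + P
      := by
    rw [hdiff]
    have h6 : |bern q Finset.univ (fun U => (∑ g ∈ tv blk U, (H g - acc0 f)) / (tv blk U).card)| ≤
        bern q Finset.univ (fun U => |(∑ g ∈ tv blk U, (H g - acc0 f)) / ((tv blk U).card : ℝ)|) := by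
      unfold bern
      refine (Finset.abs_sum_le_sum_abs _ _).trans (le_of_eq ?_)
      refine Finset.sum_congr rfl fun U _ => ?_
      rw [abs_mul, abs_of_nonneg]
      exact mul_nonneg (pow_nonneg hq0 _) (pow_nonneg (by linarith) _)
    refine h6.trans ((bern_mono hq0 hq1 _ fun U _ => hU U).trans ?_)
    rw [bern_add, bern_add, bern_const]
    have h7 : bern q Finset.univ (fun U => (∑ x : Hyp V s, (if G U x then (0 : ℝ) else 1)) / X) =
        (∑ x : Hyp V s, bern q Finset.univ (fun U => if G U x then (0 : ℝ) else 1)) / X := by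
      have : (fun U : Finset V => (∑ x : Hyp V s, (if G U x then (0 : ℝ) else 1)) / X) =
          fun U => (1 / X) * ∑ x : Hyp V s, (if G U x then (0 : ℝ) else 1) := by
        funext U; ring
      rw [this, bern_mul, bern_sum]
      ring
    rw [h7]
    have h8 := small_block blk hq0 hq1 (m := m) hN
    linarith
  have hZ1 : 1 - P ≤ Z := by
    have h8 := small_block blk hq0 hq1 (m := m) hN
    have h9 : bern q Finset.univ (fun U => 1 -
        (if (∀ j, m ≤ (U.filter (fun v => blk v = j)).card) then (0 : ℝ) else 1)) ≤ Z := by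
      rw [hZ]
      refine bern_mono hq0 hq1 _ fun U _ => ?_
      by_cases hb : ∀ j, m ≤ (U.filter (fun v => blk v = j)).card
      · have hpos : 0 < (tv blk U).card := by
          rw [card_tv]
          exact Finset.prod_pos fun j _ => lt_of_lt_of_le hm (hb j)
        have hpos' : ((tv blk U).card : ℝ) ≠ 0 := by
          have : (0 : ℝ) < (tv blk U).card := by exact_mod_cast hpos
          exact this.ne'
        rw [if_pos hb, Finset.sum_const, nsmul_eq_mul, mul_one, div_self hpos']
        norm_num
      · rw [if_neg hb]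
        simp only [sub_self]
        exact div_nonneg (Finset.sum_nonneg fun _ _ => by norm_num) (by positivity)
    have h10 : bern q (Finset.univ : Finset V) (fun U => 1 -
        (if (∀ j, m ≤ (U.filter (fun v => blk v = j)).card) then (0 : ℝ) else 1)) =
        1 - bern q Finset.univ (fun U =>
          (if (∀ j, m ≤ (U.filter (fun v => blk v = j)).card) then (0 : ℝ) else 1)) := by
      have h11 : (fun U : Finset V => 1 -
          (if (∀ j, m ≤ (U.filter (fun v => blk v = j)).card) then (0 : ℝ) else 1)) =
          fun U => 1 + (-1) * (if (∀ j, m ≤ (U.filter (fun v => blk v = j)).card)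
            then (0 : ℝ) else 1) := by
        funext U; ring
      rw [h11, bern_add, bern_mul, bern_const]
      ring
    rw [h10] at h9
    linarith
  have hZ0 : 0 ≤ Z := by
    rw [hZ]
    exact bern_nonneg hq0 hq1 _ fun U _ =>
      div_nonneg (Finset.sum_nonneg fun _ _ => by norm_num) (by positivity)
  calc |acc1 blk f - acc0 f| * (1 - P) ≤ |acc1 blk f - acc0 f| * Z :=
        mul_le_mul_of_nonneg_left hZ1 (abs_nonneg _)
    _ = |(acc1 blk f - acc0 f) * Z| := by rw [abs_mul, abs_of_nonneg hZ0]
    _ ≤ _ := hZabs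

end Pool.Agent.helper3.HPC
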