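import Pool.Agent.helper3.HPC.Prob

/-!
# The asymptotic lower bound
-/

namespace Pool.Agent.helper3.HPC

open Finset Filter

set_option linter.unusedSectionVars false

lemma ev_log (C : ℝ) {a : ℝ} (ha : 0 < a) :
    ∀ᶠ n : ℕ in atTop, C * Real.log n ≤ (n : ℝ) ^ a := by
  have h1 : ∀ᶠ x : ℝ in atTop, ‖Real.log x‖ ≤ (1 / (|C| + 1)) * ‖x ^ a‖ :=
    (isLittleO_log_rpow_atTop ha).bound (by positivity)
  have h2 := (tendsto_natCast_atTop_atTop (R := ℝ)).eventually h1
  filter_upwards [h2, eventually_ge_atTop 1] with n hn hn1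
  have hn1' : (1 : ℝ) ≤ n := by exact_mod_cast hn1
  have hlog : 0 ≤ Real.log n := Real.log_nonneg hn1'
  have hpow : 0 < (n : ℝ) ^ a := Real.rpow_pos_of_pos (by linarith) _
  rw [Real.norm_of_nonneg hlog, Real.norm_of_nonneg hpow.le] at hn
  have hC : 0 < |C| + 1 := by positivity
  have h3 : (|C| + 1) * Real.log n ≤ (n : ℝ) ^ a := by
    have := mul_le_mul_of_nonneg_left hn hC.le
    calc (|C| + 1) * Real.log n ≤ (|C| + 1) * (1 / (|C| + 1) * (n : ℝ) ^ a) := this
      _ = (n : ℝ) ^ a := by field_simp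
  have h4 : C ≤ |C| := le_abs_self C
  nlinarith

lemma ev_pow (C : ℝ) {a : ℝ} (ha : 0 < a) : ∀ᶠ n : ℕ in atTop, C ≤ (n : ℝ) ^ a :=
  ((tendsto_rpow_atTop ha).comp (tendsto_natCast_atTop_atTop (R := ℝ))).eventually_ge_atTop C

lemma ev_logpow (C : ℝ) {a : ℝ} (ha : 0 < a) :
    ∀ᶠ n : ℕ in atTop, C ≤ (Real.log n) ^ a :=
  ((tendsto_rpow_atTop ha).comp (Real.tendsto_log_atTop.comp
    (tendsto_natCast_atTop_atTop (R := ℝ)))).eventually_ge_atTop C

/-- The finite bound for the gates of a circuit. -/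
lemma circuit_bound {V : Type} [Fintype V] [DecidableEq V] {s : ℕ} {κ : Type} [Fintype κ]
    [DecidableEq κ] (hs : 1 ≤ s) (blk : V → κ) {N m r d : ℕ} (hm : 1 ≤ m) (hr : 1 ≤ r)
    (hN1 : 1 ≤ N) (hN : ∀ j, ((Finset.univ : Finset V).filter (fun v => blk v = j)).card = N)
    {ι : Type} [Fintype ι] (C : Circuit (Hyp V s) ι d) (v : ι → Hyp V s → Bool)
    (hv : C.Vals v) (hloc : C.LocalInputs r) {p : ℝ} (hp0 : 0 ≤ p) (hp1 : p ≤ 1 / 2) (i : ι) :
    |acc1 blk (v i) - acc0 (v i)| * (1 - Fintype.card κ * (2 ^ m * (1 - p ^ d / 2) ^ N)) ≤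
      Fintype.card ι * (∑ t ∈ Finset.Ioc r (r + r), (4 * r * p) ^ t * 4 ^ (t.choose s)) +
        r / m + Fintype.card κ * (2 ^ m * (1 - p ^ d / 2) ^ N) := by
  classical
  have hq0 : 0 ≤ p ^ d := pow_nonneg hp0 _
  have hq1 : p ^ d ≤ 1 := pow_le_one₀ hp0 (by linarith)
  have h1 := finite_bound hs blk (v i) hq0 hq1 (r := r) hm hN1 hN
    (fun U x => Good C v r d U x) (fun U x h => h i (C.dep_le i))
  have h2 := levels C v hv hs hr hloc hp0 hp1 d
  have hX0 : (0 : ℝ) < Fintype.card (Hyp V s) := by exact_mod_cast Fintype.card_pos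
  refine h1.trans ?_
  have h3 : (∑ x : Hyp V s, bern (p ^ d) Finset.univ
      (fun U => if Good C v r d U x then (0 : ℝ) else 1)) / Fintype.card (Hyp V s) ≤
      Fintype.card ι * (∑ t ∈ Finset.Ioc r (r + r), (4 * r * p) ^ t * 4 ^ (t.choose s)) := by
    rw [div_le_iff₀ hX0]
    refine h2.trans ?_
    have h4 : (((Finset.univ : Finset ι).filter
        (fun i => C.dep i ≤ d ∧ 1 ≤ C.dep i)).card : ℝ) ≤ Fintype.card ι := by
      exact_mod_cast Finset.card_le_univ _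
    have h5 : (0 : ℝ) ≤ (∑ t ∈ Finset.Ioc r (r + r), (4 * (r : ℝ) * p) ^ t * 4 ^ (t.choose s)) *
        Fintype.card (Hyp V s) := by positivity
    calc _ ≤ (Fintype.card ι : ℝ) * ((∑ t ∈ Finset.Ioc r (r + r), (4 * (r : ℝ) * p) ^ t *
          4 ^ (t.choose s)) * Fintype.card (Hyp V s)) := mul_le_mul_of_nonneg_right h4 h5
      _ = _ := by ring
  linarith

/-- The failure probability of one round of the switching argument. -/
lemma eta_le {s n R : ℕ} (hs : 2 ≤ s) {δ u : ℝ} (hδ0 : 0 < δ) (hδ1 : δ ≤ 1)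
    (hn : 2 ≤ n) (hu : u ^ (s - 1) = Real.log n) (hR : (R : ℝ) ≤ δ / 16 * u)
    (h4R : 4 * (R : ℝ) ≤ (n : ℝ) ^ (δ / 4)) :
    ∑ t ∈ Finset.Ioc R (R + R), (4 * (R : ℝ) * (n : ℝ) ^ (-δ)) ^ t * 4 ^ (t.choose s) ≤
      R * ((n : ℝ) ^ (-(δ / 2))) ^ (R + 1) := by
  have hn0 : (0 : ℝ) < n := by exact_mod_cast (by omega : 0 < n)
  have hn1 : (1 : ℝ) ≤ n := by exact_mod_cast (by omega : 1 ≤ n)
  have hL : 0 ≤ Real.log n := Real.log_nonneg hn1
  set b : ℝ := (n : ℝ) ^ (-(δ / 2)) with hb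
  have hb0 : 0 < b := Real.rpow_pos_of_pos hn0 _
  have hb1 : b ≤ 1 := Real.rpow_le_one_of_one_le_of_nonpos hn1 (by linarith)
  have hterm : ∀ t ∈ Finset.Ioc R (R + R),
      (4 * (R : ℝ) * (n : ℝ) ^ (-δ)) ^ t * 4 ^ (t.choose s) ≤ b ^ (R + 1) := by
    intro t ht
    rw [Finset.mem_Ioc] at ht
    have hch : t.choose s ≤ t * (2 * R) ^ (s - 1) := by
      calc t.choose s ≤ t ^ s := Nat.choose_le_pow t s
        _ = t * t ^ (s - 1) := by
            rw [← pow_succ']
            congr 1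
            omega
        _ ≤ t * (2 * R) ^ (s - 1) := by
            refine Nat.mul_le_mul_left _ (Nat.pow_le_pow_left ?_ _)
            omega
    have h2R : ((2 * R : ℕ) : ℝ) ^ (s - 1) ≤ δ / 8 * Real.log n := by
      have h1 : ((2 * R : ℕ) : ℝ) ≤ δ / 8 * u := by
        push_cast
        linarith
      calc ((2 * R : ℕ) : ℝ) ^ (s - 1) ≤ (δ / 8 * u) ^ (s - 1) :=
            pow_le_pow_left₀ (by positivity) h1 _
        _ = (δ / 8) ^ (s - 1) * Real.log n := by rw [mul_pow, hu]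
        _ ≤ δ / 8 * Real.log n := by
            refine mul_le_mul_of_nonneg_right ?_ hL
            calc (δ / 8) ^ (s - 1) ≤ (δ / 8) ^ 1 :=
                  pow_le_pow_of_le_one (by positivity) (by linarith) (by omega)
              _ = δ / 8 := pow_one _
    have h4 : (4 : ℝ) ^ (t.choose s) ≤ ((n : ℝ) ^ (δ / 4)) ^ t := by
      calc (4 : ℝ) ^ (t.choose s) ≤ 4 ^ (t * (2 * R) ^ (s - 1)) :=
            pow_le_pow_right₀ (by norm_num) hch
        _ = (4 ^ ((2 * R) ^ (s - 1))) ^ t := by rw [mul_comm, pow_mul]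
        _ ≤ ((n : ℝ) ^ (δ / 4)) ^ t := by
            refine pow_le_pow_left₀ (by positivity) ?_ _
            rw [← Real.rpow_natCast, Real.rpow_def_of_pos (by norm_num : (0 : ℝ) < 4),
              Real.rpow_def_of_pos hn0]
            refine Real.exp_le_exp.2 ?_
            have h5 : Real.log 4 ≤ 2 := by
              have h6 : Real.log 4 = 2 * Real.log 2 := by
                rw [show (4 : ℝ) = 2 ^ 2 by norm_num, Real.log_pow]
                norm_num
              have h7 := Real.log_two_lt_d9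
              linarith
            have h8 : (0 : ℝ) ≤ Real.log 4 := Real.log_nonneg (by norm_num)
            have h9 : (((2 * R) ^ (s - 1) : ℕ) : ℝ) ≤ δ / 8 * Real.log n := by
              rw [Nat.cast_pow]
              exact h2R
            calc Real.log 4 * (((2 * R) ^ (s - 1) : ℕ) : ℝ)
                ≤ 2 * (δ / 8 * Real.log n) := mul_le_mul h5 h9 (by positivity) (by norm_num)
              _ = Real.log n * (δ / 4) := by ring
    have h10 : 4 * (R : ℝ) * (n : ℝ) ^ (-δ) * (n : ℝ) ^ (δ / 4) ≤ b := by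
      have h11 : (0 : ℝ) < (n : ℝ) ^ (-δ) := Real.rpow_pos_of_pos hn0 _
      have h12 : (0 : ℝ) < (n : ℝ) ^ (δ / 4) := Real.rpow_pos_of_pos hn0 _
      calc 4 * (R : ℝ) * (n : ℝ) ^ (-δ) * (n : ℝ) ^ (δ / 4)
          ≤ (n : ℝ) ^ (δ / 4) * (n : ℝ) ^ (-δ) * (n : ℝ) ^ (δ / 4) := by
            refine mul_le_mul_of_nonneg_right ?_ h12.le
            exact mul_le_mul_of_nonneg_right h4R h11.le
        _ = b := by
            rw [← Real.rpow_add hn0, ← Real.rpow_add hn0, hb]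
            congr 1
            ring
    calc (4 * (R : ℝ) * (n : ℝ) ^ (-δ)) ^ t * 4 ^ (t.choose s)
        ≤ (4 * (R : ℝ) * (n : ℝ) ^ (-δ)) ^ t * ((n : ℝ) ^ (δ / 4)) ^ t :=
          mul_le_mul_of_nonneg_left h4 (by positivity)
      _ = (4 * (R : ℝ) * (n : ℝ) ^ (-δ) * (n : ℝ) ^ (δ / 4)) ^ t :=
          (mul_pow (4 * (R : ℝ) * (n : ℝ) ^ (-δ)) ((n : ℝ) ^ (δ / 4)) t).symm
      _ ≤ b ^ t := pow_le_pow_left₀ (by positivity) h10 _
      _ ≤ b ^ (R + 1) := pow_le_pow_of_le_one hb0.le hb1 (by omega)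
  calc _ ≤ ∑ _t ∈ Finset.Ioc R (R + R), b ^ (R + 1) := Finset.sum_le_sum hterm
    _ = _ := by
        rw [Finset.sum_const, nsmul_eq_mul, Nat.card_Ioc]
        congr 2
        omega

/-- **Lower bound.** -/
theorem lower (s d : ℕ) (hs : 2 ≤ s) (ε : ℝ) (hε0 : 0 < ε) (hε1 : ε ≤ 1) :
    ∃ c > (0 : ℝ), ∃ η > (0 : ℝ), ∃ n₀ : ℕ, ∀ n ≥ n₀, ∀ k : ℕ, 0 < k → k ∣ n →
      (k : ℝ) ≤ (n : ℝ) ^ (1 - ε) → ∀ blk : Fin n → Fin k,
      (∀ j, Fintype.card {w : Fin n // blk w = j} = n / k) →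
      ∀ (ι : Type) [Fintype ι] (C : Circuit (Hyp (Fin n) s) ι d) (r : ℕ)
        (v : ι → Hyp (Fin n) s → Bool),
        (Fintype.card ι : ℝ) ≤ (n : ℝ) ^ (c * (Real.log n) ^ (1 / ((s : ℝ) - 1))) →
        (r : ℝ) ≤ c * (Real.log n) ^ (1 / ((s : ℝ) - 1)) → C.LocalInputs r → C.Vals v →
        ∀ i, 1 - (n : ℝ) ^ (-η) ≤ errI (v i) + errII blk (v i) := by
  set a : ℝ := 1 / ((s : ℝ) - 1) with ha
  have hs' : (2 : ℝ) ≤ s := by exact_mod_cast hs
  have ha0 : 0 < a := by rw [ha]; exact one_div_pos.2 (by linarith)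
  have ha1 : a ≤ 1 := by
    rw [ha, div_le_one (by linarith)]
    linarith
  have hd1 : (0 : ℝ) < (d : ℝ) + 1 := by positivity
  set δ : ℝ := ε / (2 * (d + 1)) with hδ
  have hδ0 : 0 < δ := by rw [hδ]; positivity
  have hδd : δ * d ≤ ε / 2 := by
    rw [hδ, div_mul_eq_mul_div, div_le_div_iff₀ (by positivity) (by norm_num)]
    nlinarith
  have hδ1 : δ ≤ 1 / 2 := by
    rw [hδ, div_le_div_iff₀ (by positivity) (by norm_num)]
    have : (0 : ℝ) ≤ d := by positivity
    nlinarith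
  set c : ℝ := δ * (δ / 16) / 4 with hc
  have hc0 : 0 < c := by positivity
  have hcδ : c ≤ δ / 16 := by
    rw [hc]
    nlinarith
  refine ⟨c, hc0, ε / 8, by positivity, ?_⟩
  have hev := (((((((ev_log 4 (show 0 < δ / 4 by linarith)).and
    (ev_log 1 (show (0 : ℝ) < 1 / 2 by norm_num))).and
    (ev_logpow (max 1 (1 / c)) ha0)).and
    (ev_log 8 (show 0 < ε / 2 by linarith))).and
    (ev_log 8 (show 0 < ε / 4 by linarith))).and
    (ev_pow 8 (show 0 < ε / 2 by linarith))).and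
    (ev_pow 8 (show 0 < ε / 8 by linarith))).and
    ((ev_pow 2 (show 0 < δ by linarith)).and ((ev_logpow (16 / δ) ha0).and
      (eventually_ge_atTop 3)))
  obtain ⟨n₀, hn₀⟩ := eventually_atTop.1 hev
  refine ⟨n₀, fun n hn k hk0 hkn hkle blk hblk ι _ C r v hM hr hloc hv i => ?_⟩
  obtain ⟨⟨⟨⟨⟨⟨⟨e1, e2⟩, e3⟩, e4⟩, e5⟩, e6⟩, e7⟩, e8, e9, e10⟩ := hn₀ n hn
  set x : ℝ := (n : ℝ) with hx
  have hx3 : (3 : ℝ) ≤ x := by rw [hx]; exact_mod_cast e10
  have hx0 : 0 < x := by linarith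
  have hx1 : 1 ≤ x := by linarith
  set L : ℝ := Real.log x with hL
  have hL1 : 1 ≤ L := by
    rw [hL, Real.le_log_iff_exp_le hx0]
    have := Real.exp_one_lt_d9
    linarith
  set u : ℝ := L ^ a with hu
  have hu0 : 0 < u := Real.rpow_pos_of_pos (by linarith) _
  have huL : u ≤ L := by
    calc u ≤ L ^ (1 : ℝ) := Real.rpow_le_rpow_of_exponent_le hL1 ha1
      _ = L := Real.rpow_one L
  have hus : u ^ (s - 1) = L := by
    rw [hu, ← Real.rpow_natCast, ← Real.rpow_mul (by linarith)]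
    rw [Nat.cast_sub (by omega), Nat.cast_one, ha, one_div, inv_mul_cancel₀ (by linarith),
      Real.rpow_one]
  have hcu : 1 ≤ c * u := by
    have := (le_max_right 1 (1 / c)).trans e3
    rw [div_le_iff₀ hc0] at this
    linarith
  set R : ℕ := ⌊δ / 16 * u⌋₊ with hR
  have hRle : (R : ℝ) ≤ δ / 16 * u := Nat.floor_le (by positivity)
  have hR1 : δ / 16 * u < R + 1 := Nat.lt_floor_add_one _
  have hRpos : 1 ≤ R := by
    rw [hR]
    refine Nat.le_floor ?_
    rw [Nat.cast_one]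
    rw [div_le_iff₀ hδ0] at e9
    linarith
  have hrR : r ≤ R := by
    refine Nat.le_floor (hr.trans ?_)
    exact mul_le_mul_of_nonneg_right hcδ hu0.le
  have hlocR : C.LocalInputs R := by
    intro i' f hf
    obtain ⟨R', h1, h2⟩ := hloc i' f hf
    exact ⟨R', h1.trans hrR, h2⟩
  have hRL : (R : ℝ) ≤ L := by
    have : δ / 16 * u ≤ 1 * L := mul_le_mul (by linarith) huL hu0.le (by norm_num)
    linarith
  have h4R : 4 * (R : ℝ) ≤ x ^ (δ / 4) := by linarith
  set p : ℝ := x ^ (-δ) with hp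
  have hp0 : 0 < p := Real.rpow_pos_of_pos hx0 _
  have hp1 : p ≤ 1 / 2 := by
    rw [hp, Real.rpow_neg hx0.le, one_div]
    exact inv_anti₀ (by norm_num) e8
  -- the blocks
  have hkR : (0 : ℝ) < k := by exact_mod_cast hk0
  set N : ℕ := n / k with hNdef
  have hkN : k * N = n := Nat.mul_div_cancel' hkn
  have hNreal : (N : ℝ) = x / k := by
    rw [eq_div_iff hkR.ne', hx, ← hkN]
    push_cast
    ring
  have hNge : x ^ ε ≤ N := by
    rw [hNreal, le_div_iff₀ hkR]
    calc x ^ ε * k ≤ x ^ ε * x ^ (1 - ε) :=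
          mul_le_mul_of_nonneg_left hkle (Real.rpow_pos_of_pos hx0 _).le
      _ = x := by
          rw [← Real.rpow_add hx0]
          simp
  have hN1 : 1 ≤ N := by
    have h1 : (1 : ℝ) ≤ x ^ ε := Real.one_le_rpow hx1 hε0.le
    have h2 : (1 : ℝ) ≤ N := h1.trans hNge
    exact_mod_cast h2
  have hfib : ∀ j, ((Finset.univ : Finset (Fin n)).filter (fun w => blk w = j)).card = N := by
    intro j
    rw [← hblk j, Fintype.card_subtype]
  -- the size of the blocks of the random set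
  set y : ℝ := x ^ (ε / 2) with hy
  have hy8 : 8 ≤ y := e6
  have hqN : y ≤ p ^ d * N := by
    have h1 : p ^ d = x ^ (-(δ * d)) := by
      rw [hp, ← Real.rpow_natCast, ← Real.rpow_mul hx0.le]
      congr 1
      ring
    rw [h1]
    calc y = x ^ (-(ε / 2)) * x ^ ε := by
          rw [hy, ← Real.rpow_add hx0]
          congr 1
          ring
      _ ≤ x ^ (-(δ * d)) * N := by
          refine mul_le_mul ?_ hNge (Real.rpow_pos_of_pos hx0 _).le
            (Real.rpow_pos_of_pos hx0 _).le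
          exact Real.rpow_le_rpow_of_exponent_le hx1 (by linarith)
  set m : ℕ := ⌊y / 4⌋₊ with hm
  have hmle : (m : ℝ) ≤ y / 4 := Nat.floor_le (by linarith)
  have hm1' : y / 4 < m + 1 := Nat.lt_floor_add_one _
  have hm1 : 1 ≤ m := by
    rw [hm]
    refine Nat.le_floor ?_
    rw [Nat.cast_one]
    linarith
  have hmy : y / 8 ≤ m := by linarith
  set P : ℝ := Fintype.card (Fin k) * (2 ^ m * (1 - p ^ d / 2) ^ N) with hP
  have hq1 : p ^ d ≤ 1 := pow_le_one₀ hp0.le (by linarith)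
  have hq0 : 0 ≤ p ^ d := pow_nonneg hp0.le _
  have hPle : P ≤ x ^ (-(1 : ℝ)) := by
    have h1 : (2 : ℝ) ^ m ≤ Real.exp (y / 4) := by
      calc (2 : ℝ) ^ m ≤ (Real.exp 1) ^ m := by
            refine pow_le_pow_left₀ (by norm_num) ?_ _
            have := Real.add_one_le_exp (1 : ℝ)
            linarith
        _ = Real.exp m := by rw [← Real.exp_nat_mul, mul_one]
        _ ≤ Real.exp (y / 4) := Real.exp_le_exp.2 hmle
    have h2 : (1 - p ^ d / 2) ^ N ≤ Real.exp (-(y / 2)) := by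
      calc (1 - p ^ d / 2) ^ N ≤ (Real.exp (-(p ^ d / 2))) ^ N := by
            refine pow_le_pow_left₀ (by linarith) ?_ _
            have := Real.add_one_le_exp (-(p ^ d / 2))
            linarith
        _ = Real.exp (N * (-(p ^ d / 2))) := by rw [← Real.exp_nat_mul]
        _ ≤ Real.exp (-(y / 2)) := by
            refine Real.exp_le_exp.2 ?_
            linarith
    have h3 : (Fintype.card (Fin k) : ℝ) ≤ x := by
      rw [Fintype.card_fin]
      have : k ≤ n := Nat.le_of_dvd (by omega) hkn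
      rw [hx]
      exact_mod_cast this
    have h4 : P ≤ x * (Real.exp (y / 4) * Real.exp (-(y / 2))) := by
      rw [hP]
      refine mul_le_mul h3 ?_ (by
        refine mul_nonneg (by positivity) (pow_nonneg (by linarith) _)) hx0.le
      exact mul_le_mul h1 h2 (pow_nonneg (by linarith) _) (Real.exp_pos _).le
    refine h4.trans ?_
    rw [← Real.exp_add, Real.rpow_def_of_pos hx0, ← hL]
    have h5 : x = Real.exp L := by rw [hL, Real.exp_log hx0]
    nth_rewrite 1 [h5]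
    rw [← Real.exp_add]
    refine Real.exp_le_exp.2 ?_
    linarith
  -- the switching error
  have heta := eta_le (n := n) (R := R) hs hδ0 (by linarith) (by omega) hus hRle h4R
  have hMeta : (Fintype.card ι : ℝ) * (∑ t ∈ Finset.Ioc R (R + R),
      (4 * (R : ℝ) * p) ^ t * 4 ^ (t.choose s)) ≤ x ^ (-(1 / 2 : ℝ)) := by
    have h1 : (x ^ (-(δ / 2))) ^ (R + 1) ≤ x ^ (-(δ / 2 * (δ / 16 * u))) := by
      rw [← Real.rpow_natCast, ← Real.rpow_mul hx0.le]
      refine Real.rpow_le_rpow_of_exponent_le hx1 ?_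
      push_cast
      have h0 := mul_le_mul_of_nonneg_left hR1.le (show 0 ≤ δ / 2 by linarith)
      linarith
    have h2 : (R : ℝ) ≤ x ^ (1 / 2 : ℝ) := by linarith
    calc (Fintype.card ι : ℝ) * (∑ t ∈ Finset.Ioc R (R + R),
        (4 * (R : ℝ) * p) ^ t * 4 ^ (t.choose s))
        ≤ x ^ (c * u) * (x ^ (1 / 2 : ℝ) * x ^ (-(δ / 2 * (δ / 16 * u)))) := by
          refine mul_le_mul hM ?_ (by positivity) (Real.rpow_pos_of_pos hx0 _).le
          refine heta.trans ?_
          exact mul_le_mul h2 h1 (by positivity) (Real.rpow_pos_of_pos hx0 _).le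
      _ = x ^ (1 / 2 - c * u) := by
          rw [← Real.rpow_add hx0, ← Real.rpow_add hx0]
          congr 1
          rw [hc]
          ring
      _ ≤ x ^ (-(1 / 2 : ℝ)) := by
          refine Real.rpow_le_rpow_of_exponent_le hx1 ?_
          linarith
  have hbound := circuit_bound (by omega) blk hm1 hRpos hN1 hfib C v hv hlocR hp0.le hp1 i
  -- assembling
  have hx4 : (0 : ℝ) < x ^ (-(ε / 4)) := Real.rpow_pos_of_pos hx0 _
  have t1 : x ^ (-(1 / 2 : ℝ)) ≤ x ^ (-(ε / 4)) :=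
    Real.rpow_le_rpow_of_exponent_le hx1 (by linarith)
  have t2 : x ^ (-(1 : ℝ)) ≤ x ^ (-(ε / 4)) :=
    Real.rpow_le_rpow_of_exponent_le hx1 (by linarith)
  have t3 : (R : ℝ) / m ≤ x ^ (-(ε / 4)) := by
    have hmpos : (0 : ℝ) < m := by exact_mod_cast hm1
    rw [div_le_iff₀ hmpos]
    have h1 : (R : ℝ) * 8 ≤ x ^ (ε / 4) := by linarith
    have h2 : x ^ (-(ε / 4)) * y = x ^ (ε / 4) := by
      rw [hy, ← Real.rpow_add hx0]
      congr 1
      ring
    have h3 : x ^ (-(ε / 4)) * (y / 8) ≤ x ^ (-(ε / 4)) * m :=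
      mul_le_mul_of_nonneg_left hmy hx4.le
    have h4 : x ^ (-(ε / 4)) * (y / 8) = x ^ (ε / 4) / 8 := by
      rw [← h2]; ring
    linarith
  have t4 : 8 * x ^ (-(ε / 4)) ≤ x ^ (-(ε / 8)) := by
    have h1 : x ^ (-(ε / 8)) = x ^ (ε / 8) * x ^ (-(ε / 4)) := by
      rw [← Real.rpow_add hx0]
      congr 1
      ring
    rw [h1]
    exact mul_le_mul_of_nonneg_right e7 hx4.le
  have hP2 : P ≤ 1 / 2 := by
    refine hPle.trans ?_
    rw [Real.rpow_neg_one, one_div]
    exact inv_anti₀ (by norm_num) (by linarith)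
  have hdiff : |acc1 blk (v i) - acc0 (v i)| ≤ x ^ (-(ε / 8)) := by
    have h1 : |acc1 blk (v i) - acc0 (v i)| * (1 - P) ≤ 3 * x ^ (-(ε / 4)) := by
      refine hbound.trans ?_
      have h2 := hPle.trans t2
      have h3 := hMeta.trans t1
      linarith
    have h4 : |acc1 blk (v i) - acc0 (v i)| * (1 / 2) ≤
        |acc1 blk (v i) - acc0 (v i)| * (1 - P) :=
      mul_le_mul_of_nonneg_left (by linarith) (abs_nonneg _)
    linarith
  have hne : 0 < (tv blk (Finset.univ : Finset (Fin n))).card := by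
    rw [card_tv]
    exact Finset.prod_pos fun j _ => by
      have := hfib j
      omega
  rw [errI_eq, errII_eq blk (v i) hne]
  have h5 := neg_abs_le (acc1 blk (v i) - acc0 (v i))
  have h6 := le_abs_self (acc1 blk (v i) - acc0 (v i))
  have h7 : (n : ℝ) ^ (-(ε / 8)) = x ^ (-(ε / 8)) := rfl
  linarith

end Pool.Agent.helper3.HPC
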