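import Pool.Agent.helper3.HPC.Bern

/-!
# Vertex restrictions of functions of a random hypergraph: canonical paths

`Hyp V s` is the set of `s`-uniform hypergraphs on `V` (truth tables of the edge set).  A term is a
pair `(A, a)`: a vertex set and a prescribed hypergraph, of which only the edges inside `A` matter.
-/

namespace Pool.Agent.helper3.HPC

open Finset

set_option linter.unusedSectionVars false

variable {V : Type} [Fintype V] [DecidableEq V] {s : ℕ}

/-- The possible hyperedges: the `s`-element subsets. -/
abbrev Edge (V : Type) [DecidableEq V] (s : ℕ) : Type := {e : Finset V // e.card = s}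

/-- An `s`-uniform hypergraph on `V`, given by its indicator function. -/
abbrev Hyp (V : Type) [DecidableEq V] (s : ℕ) : Type := Edge V s → Bool

/-- `x` and `y` have the same edges inside `R`. -/
def Agr (R : Finset V) (x y : Hyp V s) : Prop := ∀ e : Edge V s, e.1 ⊆ R → x e = y e

/-- `x` and `y` have the same edges outside the edges spanned by `U`. -/
def Off (U : Finset V) (x y : Hyp V s) : Prop := ∀ e : Edge V s, ¬ e.1 ⊆ U → x e = y e

lemma Agr.symm {R : Finset V} {x y : Hyp V s} (h : Agr R x y) : Agr R y x :=
  fun e he => (h e he).symm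

lemma Agr.trans {R : Finset V} {x y z : Hyp V s} (h : Agr R x y) (h' : Agr R y z) : Agr R x z :=
  fun e he => (h e he).trans (h' e he)

lemma Agr.mono {R R' : Finset V} {x y : Hyp V s} (h : Agr R x y) (hR : R' ⊆ R) : Agr R' x y :=
  fun e he => h e (he.trans hR)

lemma Off.symm {R : Finset V} {x y : Hyp V s} (h : Off R x y) : Off R y x :=
  fun e he => (h e he).symm

lemma Off.trans {R : Finset V} {x y z : Hyp V s} (h : Off R x y) (h' : Off R y z) : Off R x z :=
  fun e he => (h e he).trans (h' e he)

lemma Off.mono {R R' : Finset V} {x y : Hyp V s} (h : Off R x y) (hR : R ⊆ R') : Off R' x y :=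
  fun e he => h e (fun h' => he (h'.trans hR))

/-- A term is not falsified when the edges outside `U` and the edges inside `R` are known. -/
def Ok (U R : Finset V) (y : Hyp V s) (T : Finset V × Hyp V s) : Prop :=
  ∀ e : Edge V s, e.1 ⊆ T.1 → (¬ e.1 ⊆ U ∨ e.1 ⊆ R) → y e = T.2 e

open Classical in
/-- The first term of the list that is not falsified. -/
noncomputable def fst (F : List (Finset V × Hyp V s)) (U R : Finset V) (y : Hyp V s) :
    Option (Finset V × Hyp V s) :=
  F.find? (fun T => decide (Ok U R y T))

lemma fst_some {F : List (Finset V × Hyp V s)} {U R : Finset V} {y : Hyp V s}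
    {T : Finset V × Hyp V s} (h : fst F U R y = some T) : T ∈ F ∧ Ok U R y T := by
  unfold fst at h
  refine ⟨List.mem_of_find?_eq_some h, ?_⟩
  have := List.find?_some h
  simpa using this

lemma fst_none {F : List (Finset V × Hyp V s)} {U R : Finset V} {y : Hyp V s}
    (h : fst F U R y = none) : ∀ T ∈ F, ¬ Ok U R y T := by
  unfold fst at h
  rw [List.find?_eq_none] at h
  intro T hT
  simpa using h T hT

/-- Comparison of two first non-falsified terms. -/
lemma fst_congr_some {F : List (Finset V × Hyp V s)} {U R U' R' : Finset V} {y y' : Hyp V s}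
    {T : Finset V × Hyp V s} (h : fst F U R y = some T)
    (h1 : ∀ T' ∈ F, Ok U' R' y' T' → Ok U R y T') (h2 : Ok U' R' y' T) :
    fst F U' R' y' = some T := by
  unfold fst at h ⊢
  induction F with
  | nil => simp at h
  | cons a F ih =>
    rw [List.find?_cons] at h ⊢
    by_cases ha : Ok U R y a
    · simp only [ha, decide_true] at h
      have : a = T := by simpa using h
      subst this
      simp [h2]
    · simp only [ha, decide_false] at h
      have ha' : ¬ Ok U' R' y' a := fun h' => ha (h1 a (by simp) h')
      simp only [ha', decide_false]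
      exact ih h fun T' hT' => h1 T' (by simp [hT'])

/-- The vertex sets revealed along the canonical path. -/
inductive Reach (F : List (Finset V × Hyp V s)) (U : Finset V) (y : Hyp V s) : Finset V → Prop
  | nil : Reach F U y ∅
  | step {R : Finset V} {T : Finset V × Hyp V s} (h : Reach F U y R) (h1 : fst F U R y = some T)
      (h2 : ¬ T.1 ∩ U ⊆ R) : Reach F U y (R ∪ (T.1 ∩ U))

lemma Reach.subset {F : List (Finset V × Hyp V s)} {U : Finset V} {y : Hyp V s} {R : Finset V}
    (h : Reach F U y R) : R ⊆ U := by
  induction h with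
  | nil => simp
  | step h h1 h2 ih => exact Finset.union_subset ih Finset.inter_subset_right

lemma Reach.congr {F : List (Finset V × Hyp V s)} {U : Finset V} {y y' : Hyp V s} {R : Finset V}
    (h : Reach F U y R) (ho : Off U y y') (ha : Agr R y y') : Reach F U y' R := by
  induction h with
  | nil => exact Reach.nil
  | @step R T h h1 h2 ih =>
    have ha' : Agr R y y' := ha.mono Finset.subset_union_left
    refine Reach.step (ih ha') ?_ h2
    have key : ∀ T' : Finset V × Hyp V s, Ok U R y T' ↔ Ok U R y' T' := by
      intro T'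
      constructor
      · intro hT e he hc
        rw [← hT e he hc]
        rcases hc with hc | hc
        · exact (ho e hc).symm
        · exact (ha' e hc).symm
      · intro hT e he hc
        rw [← hT e he hc]
        rcases hc with hc | hc
        · exact ho e hc
        · exact ha' e hc
    exact fst_congr_some h1 (fun T' _ h' => (key T').2 h') ((key T).1 (fst_some h1).2)

/-- The restriction is bad: some canonical path reveals more than `r` vertices. -/
def Bad (F : List (Finset V × Hyp V s)) (U : Finset V) (r : ℕ) (x : Hyp V s) : Prop :=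
  ∃ y : Hyp V s, Off U x y ∧ ∃ R : Finset V, Reach F U y R ∧ r < R.card

lemma Reach.first_big {F : List (Finset V × Hyp V s)} {U : Finset V} {y : Hyp V s} {R : Finset V}
    {r w : ℕ} (hw : ∀ T ∈ F, T.1.card ≤ w) (h : Reach F U y R) (hR : r < R.card) :
    ∃ R', Reach F U y R' ∧ r < R'.card ∧ R'.card ≤ r + w := by
  induction h with
  | nil => simp at hR
  | @step R T h h1 h2 ih =>
    by_cases hc : r < R.card
    · exact ih hc
    · refine ⟨_, Reach.step h h1 h2, hR, ?_⟩
      have h3 := Finset.card_union_le R (T.1 ∩ U)
      have h4 : (T.1 ∩ U).card ≤ w :=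
        (Finset.card_le_card Finset.inter_subset_left).trans (hw T (fst_some h1).1)
      omega

/-- `g` restricted to the edges inside `U` (the other edges being those of `x`) has vertex
certificates of size `r`. -/
def Cert (U : Finset V) (x : Hyp V s) (g : Hyp V s → Bool) (r : ℕ) : Prop :=
  ∀ x' : Hyp V s, Off U x x' → ∃ R : Finset V, R ⊆ U ∧ R.card ≤ r ∧
    ∀ x'' : Hyp V s, Off U x x'' → Agr R x' x'' → g x'' = g x'

lemma cert_of_not_bad {F : List (Finset V × Hyp V s)} {U : Finset V} {r : ℕ} {x : Hyp V s}
    {g : Hyp V s → Bool} (hg : ∀ y, Off U x y → (g y = true ↔ ∃ T ∈ F, Agr T.1 T.2 y))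
    (hb : ¬ Bad F U r x) : Cert U x g r := by
  classical
  intro x' hx'
  have hne : ((Finset.univ : Finset (Finset V)).filter (fun R => Reach F U x' R)).Nonempty :=
    ⟨∅, by simp [Reach.nil]⟩
  obtain ⟨R, hR, hmax⟩ := Finset.exists_max_image _ (fun R : Finset V => R.card) hne
  simp only [Finset.mem_filter, Finset.mem_univ, true_and] at hR hmax
  have hRU := hR.subset
  refine ⟨R, hRU, ?_, ?_⟩
  · by_contra hc
    exact hb ⟨x', hx', R, hR, by omega⟩
  · intro x'' hx'' ha
    cases hf : fst F U R x' with
    | none =>
      have hn := fst_none hf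
      have h0 : ∀ y, Off U x y → Agr R x' y → g y = false := by
        intro y hy hay
        by_contra hc
        have hc' : g y = true := by simpa using hc
        obtain ⟨T, hT, hTy⟩ := (hg y hy).1 hc'
        refine hn T hT ?_
        intro e he hcase
        rw [hTy e he]
        rcases hcase with hcase | hcase
        · rw [← hx' e hcase, ← hy e hcase]
        · exact hay e hcase
      rw [h0 x'' hx'' ha, h0 x' hx' (fun e _ => rfl)]
    | some T =>
      obtain ⟨hT, hTok⟩ := fst_some hf
      have hsub : T.1 ∩ U ⊆ R := by
        by_contra hc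
        have h3 := Reach.step hR hf hc
        have h4 := hmax _ h3
        have h5 : R ⊆ R ∪ (T.1 ∩ U) := Finset.subset_union_left
        have h6 := Finset.eq_of_subset_of_card_le h5 h4
        exact hc (by rw [h6]; exact Finset.subset_union_right)
      have h0 : ∀ y, Off U x y → Agr R x' y → g y = true := by
        intro y hy hay
        refine (hg y hy).2 ⟨T, hT, ?_⟩
        intro e he
        by_cases hc : e.1 ⊆ U
        · have hc' : e.1 ⊆ R := (Finset.subset_inter he hc).trans hsub
          rw [← hTok e he (Or.inr hc')]
          exact hay e hc'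
        · rw [← hTok e he (Or.inl hc), ← hx' e hc, ← hy e hc]
      rw [h0 x'' hx'' ha, h0 x' hx' (fun e _ => rfl)]

lemma Cert.not {U : Finset V} {x : Hyp V s} {g : Hyp V s → Bool} {r : ℕ} (h : Cert U x g r) :
    Cert U x (fun y => !(g y)) r := by
  intro x' hx'
  obtain ⟨R, h1, h2, h3⟩ := h x' hx'
  exact ⟨R, h1, h2, fun x'' hx'' ha => by simp only [h3 x'' hx'' ha]⟩

lemma Cert.mono {U W : Finset V} {x : Hyp V s} {g : Hyp V s → Bool} {r : ℕ} (hU : U ⊆ W)
    (h : Cert W x g r) : Cert U x g r := by
  intro x' hx'
  obtain ⟨R, h1, h2, h3⟩ := h x' (hx'.mono hU)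
  refine ⟨R ∩ U, Finset.inter_subset_right,
    (Finset.card_le_card Finset.inter_subset_left).trans h2, ?_⟩
  intro x'' hx'' ha
  refine h3 x'' (hx''.mono hU) ?_
  intro e he
  by_cases hc : e.1 ⊆ U
  · exact ha e (Finset.subset_inter he hc)
  · rw [← hx' e hc, ← hx'' e hc]

end Pool.Agent.helper3.HPC
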