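import Pool.Agent.helper3.HPC.Circ

/-!
# Planting a transversal inside the random vertex set
-/

namespace Pool.Agent.helper3.HPC

open Finset

set_option linter.unusedSectionVars false

variable {V : Type} [Fintype V] [DecidableEq V] {s : ℕ}
variable {κ : Type} [Fintype κ] [DecidableEq κ]

/-- The hypergraph `x` together with all edges inside `S`. -/
def plant (S : Finset V) (x : Hyp V s) : Hyp V s := fun e => x e || decide (e.1 ⊆ S)

/-- The transversals of the partition `blk` that lie inside `U`. -/
def tv (blk : V → κ) (U : Finset V) : Finset (κ → V) :=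
  Fintype.piFinset (fun j => U.filter (fun v => blk v = j))

lemma mem_tv {blk : V → κ} {U : Finset V} {g : κ → V} :
    g ∈ tv blk U ↔ ∀ j, g j ∈ U ∧ blk (g j) = j := by
  simp [tv, Fintype.mem_piFinset]

lemma card_tv (blk : V → κ) (U : Finset V) :
    (tv blk U).card = ∏ j, (U.filter (fun v => blk v = j)).card := by
  simp [tv, Fintype.card_piFinset]

/-- Fixing one coordinate of a transversal. -/
lemma card_tv_fix {blk : V → κ} {U : Finset V} {v : V} :
    ((tv blk U).filter (fun g => g (blk v) = v)).card * (U.filter (fun w => blk w = blk v)).card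
      ≤ (tv blk U).card := by
  by_cases hv : v ∈ U
  · have h1 : (tv blk U).filter (fun g => g (blk v) = v) ⊆
        Fintype.piFinset (Function.update (fun j => U.filter (fun w => blk w = j)) (blk v) {v}) := by
      intro g hg
      rw [Finset.mem_filter] at hg
      rw [Fintype.mem_piFinset]
      intro j
      by_cases hj : j = blk v
      · subst hj
        simp [hg.2]
      · rw [Function.update_of_ne hj]
        have := mem_tv.1 hg.1 j
        simp [this.1, this.2]
    have h2 := Finset.card_le_card h1
    rw [Fintype.card_piFinset] at h2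
    rw [card_tv, ← Finset.mul_prod_erase Finset.univ _ (Finset.mem_univ (blk v))]
    rw [← Finset.mul_prod_erase Finset.univ _ (Finset.mem_univ (blk v))] at h2
    simp only [Function.update_self, Finset.card_singleton, one_mul] at h2
    have h3 : ∏ j ∈ Finset.univ.erase (blk v),
        (Function.update (fun j => U.filter (fun w => blk w = j)) (blk v) {v} j).card =
        ∏ j ∈ Finset.univ.erase (blk v), (U.filter (fun w => blk w = j)).card := by
      refine Finset.prod_congr rfl fun j hj => ?_
      rw [Function.update_of_ne (Finset.ne_of_mem_erase hj)]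
    rw [h3] at h2
    rw [mul_comm]
    exact Nat.mul_le_mul_left _ h2
  · have h1 : (tv blk U).filter (fun g => g (blk v) = v) = ∅ := by
      rw [Finset.eq_empty_iff_forall_notMem]
      intro g hg
      rw [Finset.mem_filter] at hg
      have := (mem_tv.1 hg.1 (blk v)).1
      rw [hg.2] at this
      exact hv this
    rw [h1]
    simp

/-- Indicator of acceptance. -/
def ind (b : Bool) : ℝ := if b then 1 else 0

lemma ind_nonneg (b : Bool) : 0 ≤ ind b := by
  unfold ind; split_ifs <;> norm_num

lemma ind_le_one (b : Bool) : ind b ≤ 1 := by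
  unfold ind; split_ifs <;> norm_num

lemma abs_ind_sub (a b : Bool) : |ind a - ind b| ≤ 1 := by
  unfold ind
  cases a <;> cases b <;> norm_num

/-- The average change of `f` when a random transversal of `U` is planted. -/
noncomputable def change (blk : V → κ) (f : Hyp V s → Bool) (U : Finset V) (x : Hyp V s) : ℝ :=
  (∑ g ∈ tv blk U, |ind (f (plant (Finset.univ.image g) x)) - ind (f x)|) / (tv blk U).card

lemma change_nonneg (blk : V → κ) (f : Hyp V s → Bool) (U : Finset V) (x : Hyp V s) :
    0 ≤ change blk f U x := by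
  unfold change; positivity

lemma change_le_one (blk : V → κ) (f : Hyp V s → Bool) (U : Finset V) (x : Hyp V s) :
    change blk f U x ≤ 1 := by
  unfold change
  refine div_le_one_of_le₀ ?_ (by positivity)
  calc _ ≤ ∑ _g ∈ tv blk U, (1 : ℝ) := Finset.sum_le_sum fun g _ => abs_ind_sub _ _
    _ = _ := by simp

lemma change_small (hs : 1 ≤ s) {blk : V → κ} {f : Hyp V s → Bool} {U : Finset V} {x : Hyp V s}
    {r m : ℕ} (hm : 1 ≤ m) (hU : ∀ j, m ≤ (U.filter (fun v => blk v = j)).card)
    (hc : Cert U x f r) : change blk f U x ≤ r / m := by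
  classical
  obtain ⟨R, hR1, hR2, hR3⟩ := hc x (fun _ _ => rfl)
  have hpos : 0 < (tv blk U).card := by
    rw [card_tv]
    exact Finset.prod_pos fun j _ => lt_of_lt_of_le hm (hU j)
  have hpos' : (0 : ℝ) < (tv blk U).card := by exact_mod_cast hpos
  have hm' : (0 : ℝ) < m := by exact_mod_cast hm
  unfold change
  rw [div_le_iff₀ hpos']
  have h1 : ∀ g ∈ tv blk U, |ind (f (plant (Finset.univ.image g) x)) - ind (f x)| ≤
      ∑ v ∈ R, if g (blk v) = v then (1 : ℝ) else 0 := by
    intro g hg
    by_cases hgR : ∃ v ∈ R, g (blk v) = v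
    · obtain ⟨v, hv, hgv⟩ := hgR
      have h2 := Finset.single_le_sum (s := R) (f := fun v => if g (blk v) = v then (1 : ℝ) else 0)
        (fun i _ => by split_ifs <;> norm_num) hv
      simp only [hgv, if_true] at h2
      exact (abs_ind_sub _ _).trans h2
    · have h3 : f (plant (Finset.univ.image g) x) = f x := by
        refine hR3 _ ?_ ?_
        · intro e he
          have : ¬ e.1 ⊆ Finset.univ.image g := by
            intro h4
            apply he
            intro v hv
            obtain ⟨j, _, hj⟩ := Finset.mem_image.1 (h4 hv)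
            rw [← hj]
            exact (mem_tv.1 hg j).1
          simp [plant, this]
        · intro e he
          have : ¬ e.1 ⊆ Finset.univ.image g := by
            intro h4
            have hne : e.1.Nonempty := by
              rw [← Finset.card_pos, e.2]; exact hs
            obtain ⟨v, hv⟩ := hne
            obtain ⟨j, _, hj⟩ := Finset.mem_image.1 (h4 hv)
            have h5 := (mem_tv.1 hg j).2
            refine hgR ⟨v, he hv, ?_⟩
            rw [← hj, h5]
          simp [plant, this]
      rw [h3, sub_self, abs_zero]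
      exact Finset.sum_nonneg fun i _ => by split_ifs <;> norm_num
  calc ∑ g ∈ tv blk U, |ind (f (plant (Finset.univ.image g) x)) - ind (f x)|
      ≤ ∑ g ∈ tv blk U, ∑ v ∈ R, (if g (blk v) = v then (1 : ℝ) else 0) :=
        Finset.sum_le_sum h1
    _ = ∑ v ∈ R, (((tv blk U).filter (fun g => g (blk v) = v)).card : ℝ) := by
        rw [Finset.sum_comm]
        refine Finset.sum_congr rfl fun v _ => ?_
        rw [Finset.card_filter]
        push_cast
        rfl
    _ ≤ ∑ _v ∈ R, ((tv blk U).card : ℝ) / m := by
        refine Finset.sum_le_sum fun v _ => ?_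
        rw [le_div_iff₀ hm']
        have h4 := card_tv_fix (blk := blk) (U := U) (v := v)
        have h5 : ((tv blk U).filter (fun g => g (blk v) = v)).card * m ≤ (tv blk U).card :=
          (Nat.mul_le_mul_left _ (hU (blk v))).trans h4
        exact_mod_cast h5
    _ = R.card * (((tv blk U).card : ℝ) / m) := by
        rw [Finset.sum_const, nsmul_eq_mul]
    _ ≤ r * (((tv blk U).card : ℝ) / m) := by
        refine mul_le_mul_of_nonneg_right ?_ (by positivity)
        exact_mod_cast hR2
    _ = _ := by ring

/-- Blockwise exchange of two transversals. -/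
def blockSwap (blk : V → κ) {g g' : κ → V} (hg : ∀ j, blk (g j) = j) (hg' : ∀ j, blk (g' j) = j) :
    V ≃ V where
  toFun v := Equiv.swap (g (blk v)) (g' (blk v)) v
  invFun v := Equiv.swap (g (blk v)) (g' (blk v)) v
  left_inv v := by
    have h1 : blk (Equiv.swap (g (blk v)) (g' (blk v)) v) = blk v := by
      rw [Equiv.swap_apply_def]
      split_ifs with h2 h3
      · exact hg' _
      · exact hg _
      · rfl
    simp only [h1]
    have := (Equiv.swap (g (blk v)) (g' (blk v))).symm_apply_apply v
    rwa [Equiv.symm_swap] at this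
  right_inv v := by
    have h1 : blk (Equiv.swap (g (blk v)) (g' (blk v)) v) = blk v := by
      rw [Equiv.swap_apply_def]
      split_ifs with h2 h3
      · exact hg' _
      · exact hg _
      · rfl
    simp only [h1]
    have := (Equiv.swap (g (blk v)) (g' (blk v))).symm_apply_apply v
    rwa [Equiv.symm_swap] at this

lemma blk_blockSwap (blk : V → κ) {g g' : κ → V} (hg : ∀ j, blk (g j) = j)
    (hg' : ∀ j, blk (g' j) = j) (v : V) : blk (blockSwap blk hg hg' v) = blk v := by
  show blk (Equiv.swap (g (blk v)) (g' (blk v)) v) = blk v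
  rw [Equiv.swap_apply_def]
  split_ifs with h2 h3
  · exact hg' _
  · exact hg _
  · rfl

lemma blockSwap_apply (blk : V → κ) {g g' : κ → V} (hg : ∀ j, blk (g j) = j)
    (hg' : ∀ j, blk (g' j) = j) (j : κ) : blockSwap blk hg hg' (g j) = g' j := by
  show Equiv.swap (g (blk (g j))) (g' (blk (g j))) (g j) = g' j
  rw [hg j, Equiv.swap_apply_left]

/-- The weight of a set under `bern q`. -/
noncomputable def wt (q : ℝ) (U : Finset V) : ℝ :=
  q ^ U.card * (1 - q) ^ ((Finset.univ : Finset V).card - U.card)

lemma bern_univ (q : ℝ) (f : Finset V → ℝ) :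
    bern q Finset.univ f = ∑ U : Finset V, wt q U * f U := by
  unfold bern wt
  rw [Finset.powerset_univ]

/-- The weight of a transversal. -/
noncomputable def cw (q : ℝ) (blk : V → κ) (g : κ → V) : ℝ :=
  ∑ U : Finset V, if (∀ j, g j ∈ U) then wt q U / (tv blk U).card else 0

lemma cw_eq (q : ℝ) (blk : V → κ) {g g' : κ → V} (hg : ∀ j, blk (g j) = j)
    (hg' : ∀ j, blk (g' j) = j) : cw q blk g = cw q blk g' := by
  set π := blockSwap blk hg hg' with hπ
  unfold cw
  rw [← Equiv.sum_comp (Equiv.finsetCongr π)
    (fun U : Finset V => if (∀ j, g' j ∈ U) then wt q U / (tv blk U).card else 0)]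
  refine Finset.sum_congr rfl fun U _ => ?_
  simp only [Equiv.finsetCongr_apply]
  have h1 : (∀ j, g' j ∈ U.map π.toEmbedding) ↔ (∀ j, g j ∈ U) := by
    refine forall_congr' fun j => ?_
    rw [← blockSwap_apply blk hg hg' j, ← hπ]
    exact Finset.mem_map' π.toEmbedding
  have h2 : wt q (U.map π.toEmbedding) = wt q U := by
    unfold wt
    rw [Finset.card_map]
  have h3 : (tv blk (U.map π.toEmbedding)).card = (tv blk U).card := by
    rw [card_tv, card_tv]
    refine Finset.prod_congr rfl fun j _ => ?_
    rw [Finset.filter_map, Finset.card_map]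
    congr 1
    ext v
    simp only [Finset.mem_filter, Function.comp_apply, Equiv.coe_toEmbedding]
    rw [hπ, blk_blockSwap blk hg hg' v]
  simp only [h1, h2, h3]

/-- Averaging over a random transversal of the random set `U`. -/
lemma sum_cw (q : ℝ) (blk : V → κ) (H : (κ → V) → ℝ) :
    ∑ g ∈ tv blk Finset.univ, cw q blk g * H g =
      bern q Finset.univ (fun U => (∑ g ∈ tv blk U, H g) / (tv blk U).card) := by
  rw [bern_univ]
  unfold cw
  simp_rw [Finset.sum_mul]
  rw [Finset.sum_comm]
  refine Finset.sum_congr rfl fun U _ => ?_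
  have h1 : ∑ g ∈ tv blk Finset.univ,
      (if (∀ j, g j ∈ U) then wt q U / ((tv blk U).card : ℝ) else 0) * H g =
      ∑ g ∈ (tv blk Finset.univ).filter (fun g => ∀ j, g j ∈ U),
        wt q U / ((tv blk U).card : ℝ) * H g := by
    rw [Finset.sum_filter]
    refine Finset.sum_congr rfl fun g _ => ?_
    split_ifs <;> simp
  have h2 : (tv blk Finset.univ).filter (fun g => ∀ j, g j ∈ U) = tv blk U := by
    ext g
    rw [Finset.mem_filter, mem_tv, mem_tv]
    constructor
    · rintro ⟨h3, h4⟩ j
      exact ⟨h4 j, (h3 j).2⟩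
    · intro h3
      exact ⟨fun j => ⟨Finset.mem_univ _, (h3 j).2⟩, fun j => (h3 j).1⟩
  rw [h1, h2, ← Finset.mul_sum]
  ring

/-- The probability that some block of `U` is small. -/
lemma small_block (blk : V → κ) {q : ℝ} (hq0 : 0 ≤ q) (hq1 : q ≤ 1) {N m : ℕ}
    (hN : ∀ j, ((Finset.univ : Finset V).filter (fun v => blk v = j)).card = N) :
    bern q Finset.univ (fun U => if (∀ j, m ≤ (U.filter (fun v => blk v = j)).card)
      then (0 : ℝ) else 1) ≤ Fintype.card κ * (2 ^ m * (1 - q / 2) ^ N) := by
  classical
  have h1 : ∀ U : Finset V, (if (∀ j, m ≤ (U.filter (fun v => blk v = j)).card)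
      then (0 : ℝ) else 1) ≤
      ∑ j : κ, 2 ^ m * ∏ v ∈ U, (if blk v = j then (1 / 2 : ℝ) else 1) := by
    intro U
    have hnn : ∀ j ∈ (Finset.univ : Finset κ),
        (0 : ℝ) ≤ 2 ^ m * ∏ v ∈ U, (if blk v = j then (1 / 2 : ℝ) else 1) := by
      intro j _
      refine mul_nonneg (by positivity) (Finset.prod_nonneg fun v _ => ?_)
      split_ifs <;> norm_num
    split_ifs with h
    · exact Finset.sum_nonneg hnn
    · push Not at h
      obtain ⟨j, hj⟩ := h
      have h2 := Finset.single_le_sum hnn (Finset.mem_univ j)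
      refine le_trans ?_ h2
      have h3 : ∏ v ∈ U, (if blk v = j then (1 / 2 : ℝ) else 1) =
          (1 / 2 : ℝ) ^ (U.filter (fun v => blk v = j)).card := by
        rw [Finset.prod_ite]
        simp
      rw [h3]
      have h4 : (1 / 2 : ℝ) ^ m ≤ (1 / 2 : ℝ) ^ (U.filter (fun v => blk v = j)).card :=
        pow_le_pow_of_le_one (by norm_num) (by norm_num) hj.le
      calc (1 : ℝ) = 2 ^ m * (1 / 2 : ℝ) ^ m := by
            rw [← mul_pow]; norm_num
        _ ≤ _ := mul_le_mul_of_nonneg_left h4 (by positivity)
  refine (bern_mono hq0 hq1 Finset.univ fun U _ => h1 U).trans ?_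
  rw [bern_sum]
  have h2 : ∀ j : κ, bern q Finset.univ (fun U : Finset V =>
      2 ^ m * ∏ v ∈ U, (if blk v = j then (1 / 2 : ℝ) else 1)) = 2 ^ m * (1 - q / 2) ^ N := by
    intro j
    rw [bern_mul, bern_prod]
    congr 1
    have h3 : ∀ v : V, (1 - q + q * (if blk v = j then (1 / 2 : ℝ) else 1)) =
        if blk v = j then 1 - q / 2 else 1 := by
      intro v
      split_ifs <;> ring
    simp_rw [h3]
    rw [Finset.prod_ite]
    simp [hN j]
  simp_rw [h2]
  rw [Finset.sum_const, nsmul_eq_mul, Finset.card_univ]

end Pool.Agent.helper3.HPC
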