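import Pool.Agent.helper3.HPC.Finite

/-!
# Error probabilities as quotients of cardinalities
-/

namespace Pool.Agent.helper3.HPC

open Finset

set_option linter.unusedSectionVars false

variable {V : Type} [Fintype V] [DecidableEq V] {s : ℕ}
variable {κ : Type} [Fintype κ] [DecidableEq κ]

/-- Type I error of the test `f`: the probability that `f` accepts a uniformly random hypergraph. -/
noncomputable def errI (f : Hyp V s → Bool) : ℝ :=
  (Fintype.card {x : Hyp V s // f x = true} : ℝ) / Fintype.card (Hyp V s)

/-- Type II error of the test `f`: the probability that `f` rejects the hypergraph obtained from a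
uniformly random hypergraph by adding all edges inside the vertex set of a uniformly random
transversal `g` of the partition of `V` into the blocks `{v | blk v = j}`. -/
noncomputable def errII (blk : V → κ) (f : Hyp V s → Bool) : ℝ :=
  (Fintype.card {q : (κ → V) × Hyp V s //
      (∀ j, blk (q.1 j) = j) ∧ f (plant (Finset.univ.image q.1) q.2) = false} : ℝ) /
    (Fintype.card {g : κ → V // ∀ j, blk (g j) = j} * Fintype.card (Hyp V s))

lemma sum_ind {α : Type} [Fintype α] (f : α → Bool) :
    ∑ x : α, ind (f x) = (Fintype.card {x : α // f x = true} : ℝ) := by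
  classical
  rw [Fintype.card_subtype, Finset.card_filter]
  push_cast
  rfl

lemma errI_eq (f : Hyp V s → Bool) : errI f = acc0 f := by
  unfold errI acc0
  rw [sum_ind]

lemma errII_eq (blk : V → κ) (f : Hyp V s → Bool)
    (hne : 0 < (tv blk (Finset.univ : Finset V)).card) : errII blk f = 1 - acc1 blk f := by
  classical
  have hX0 : (0 : ℝ) < Fintype.card (Hyp V s) := by exact_mod_cast Fintype.card_pos
  have hT0 : (0 : ℝ) < (tv blk (Finset.univ : Finset V)).card := by exact_mod_cast hne
  have h1 : Fintype.card {g : κ → V // ∀ j, blk (g j) = j} =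
      (tv blk (Finset.univ : Finset V)).card := by
    rw [Fintype.card_subtype]
    congr 1
    ext g
    simp [mem_tv]
  have h2 : (Fintype.card {q : (κ → V) × Hyp V s //
      (∀ j, blk (q.1 j) = j) ∧ f (plant (Finset.univ.image q.1) q.2) = false} : ℝ) =
      ∑ g ∈ tv blk (Finset.univ : Finset V), ∑ x : Hyp V s,
        (1 - ind (f (plant (Finset.univ.image g) x))) := by
    rw [Fintype.card_subtype, Finset.card_filter]
    push_cast
    rw [Fintype.sum_prod_type]
    have h3 : ∀ g : κ → V, g ∉ tv blk (Finset.univ : Finset V) →
        ∑ x : Hyp V s, (if (∀ j, blk (g j) = j) ∧ f (plant (Finset.univ.image g) x) = false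
          then (1 : ℝ) else 0) = 0 := by
      intro g hg
      refine Finset.sum_eq_zero fun x _ => ?_
      have : ¬ (∀ j, blk (g j) = j) := by
        intro h
        exact hg (mem_tv.2 fun j => ⟨Finset.mem_univ _, h j⟩)
      simp [this]
    rw [← Finset.sum_subset (Finset.subset_univ (tv blk (Finset.univ : Finset V)))
      (fun g _ hg => h3 g hg)]
    refine Finset.sum_congr rfl fun g hg => Finset.sum_congr rfl fun x _ => ?_
    have hg' : ∀ j, blk (g j) = j := fun j => (mem_tv.1 hg j).2
    unfold ind
    cases f (plant (Finset.univ.image g) x) <;> simp [hg']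
  unfold errII acc1
  rw [h1, h2]
  simp_rw [Finset.sum_sub_distrib, Finset.sum_const, nsmul_eq_mul, Finset.card_univ, mul_one]
  rw [sub_div, div_self (mul_pos hT0 hX0).ne']

end Pool.Agent.helper3.HPC
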