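import Pool.Agent.helper3.HPC.Count

/-!
# The vertex switching lemma
-/

namespace Pool.Agent.helper3.HPC

open Finset

set_option linter.unusedSectionVars false

variable {V : Type} [Fintype V] [DecidableEq V] {s : ℕ}

open Classical in
/-- The number of hypergraphs whose canonical path visits `R`. -/
noncomputable def nReach (F : List (Finset V × Hyp V s)) (U R : Finset V) : ℝ :=
  (((Finset.univ : Finset (Hyp V s)).filter (fun y => Reach F U y R)).card : ℝ)

open Classical in
lemma bad_le {F : List (Finset V × Hyp V s)} {w r : ℕ} (hw : ∀ T ∈ F, T.1.card ≤ w)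
    (U : Finset V) :
    (∑ y : Hyp V s, if Bad F U r y then (1 : ℝ) else 0) ≤
      ∑ t ∈ Finset.Ioc r (r + w), ∑ R ∈ U.powersetCard t, 2 ^ (t.choose s) * nReach F U R := by
  have h1 : (∑ y : Hyp V s, if Bad F U r y then (1 : ℝ) else 0) =
      (((Finset.univ : Finset (Hyp V s)).filter (fun y => Bad F U r y)).card : ℝ) := by
    rw [Finset.card_filter]
    push_cast
    rfl
  rw [h1]
  set Z : Finset V → Hyp V s → Finset (Hyp V s) := fun R y =>
    Finset.univ.filter (fun x => ∀ e, e ∉ (Finset.univ : Finset (Edge V s)).filter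
      (fun e => e.1 ⊆ R) → x e = y e) with hZ
  have hsub : (Finset.univ : Finset (Hyp V s)).filter (fun y => Bad F U r y) ⊆
      (Finset.Ioc r (r + w)).biUnion (fun t => (U.powersetCard t).biUnion (fun R =>
        ((Finset.univ : Finset (Hyp V s)).filter (fun y => Reach F U y R)).biUnion (fun y =>
          Z R y))) := by
    intro x hx
    simp only [Finset.mem_filter, Finset.mem_univ, true_and] at hx
    obtain ⟨y, hy, R, hR, hRr⟩ := hx
    obtain ⟨R', hR', h2, h3⟩ := hR.first_big hw hRr
    have hR'U := hR'.subset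
    set y' : Hyp V s := fun e => if e.1 ⊆ R' then y e else x e with hy'
    have h4 : Reach F U y' R' := by
      refine hR'.congr ?_ ?_
      · intro e he
        have : ¬ e.1 ⊆ R' := fun h => he (h.trans hR'U)
        simp only [hy', this, if_false]
        exact (hy e he).symm
      · intro e he
        simp only [hy', he, if_true]
    rw [Finset.mem_biUnion]
    refine ⟨R'.card, Finset.mem_Ioc.2 ⟨h2, h3⟩, ?_⟩
    rw [Finset.mem_biUnion]
    refine ⟨R', Finset.mem_powersetCard.2 ⟨hR'U, rfl⟩, ?_⟩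
    rw [Finset.mem_biUnion]
    refine ⟨y', by simpa using h4, ?_⟩
    simp only [hZ, Finset.mem_filter, Finset.mem_univ, true_and]
    intro e he
    simp only [hy', he, if_false]
  have hZc : ∀ R y, (Z R y).card = 2 ^ (R.card.choose s) := by
    intro R y
    have := card_agree ((Finset.univ : Finset (Edge V s)).filter (fun e => e.1 ⊆ R)) y
    rw [Fintype.card_subtype, card_edges] at this
    exact this
  have h5 := Finset.card_le_card hsub
  have h6 : ((Finset.Ioc r (r + w)).biUnion (fun t => (U.powersetCard t).biUnion (fun R =>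
        ((Finset.univ : Finset (Hyp V s)).filter (fun y => Reach F U y R)).biUnion (fun y =>
          Z R y)))).card ≤
      ∑ t ∈ Finset.Ioc r (r + w), ∑ R ∈ U.powersetCard t,
        ∑ y ∈ (Finset.univ : Finset (Hyp V s)).filter (fun y => Reach F U y R), (Z R y).card :=
    Finset.card_biUnion_le.trans (Finset.sum_le_sum fun t _ =>
      Finset.card_biUnion_le.trans (Finset.sum_le_sum fun R _ => Finset.card_biUnion_le))
  have h7 : (((Finset.univ : Finset (Hyp V s)).filter (fun y => Bad F U r y)).card : ℝ) ≤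
      ∑ t ∈ Finset.Ioc r (r + w), ∑ R ∈ U.powersetCard t,
        ∑ y ∈ (Finset.univ : Finset (Hyp V s)).filter (fun y => Reach F U y R),
          ((Z R y).card : ℝ) := by
    exact_mod_cast h5.trans h6
  refine h7.trans (le_of_eq ?_)
  refine Finset.sum_congr rfl fun t _ => Finset.sum_congr rfl fun R hR => ?_
  have hRc := (Finset.mem_powersetCard.1 hR).2
  simp_rw [hZc, hRc]
  rw [Finset.sum_const, nsmul_eq_mul, nReach]
  push_cast
  ring

open Classical in
lemma nReach_sum {F : List (Finset V × Hyp V s)} {w : ℕ} (hs : 1 ≤ s) (hw1 : 1 ≤ w)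
    (hw : ∀ T ∈ F, T.1.card ≤ w) (W U' : Finset V) (t : ℕ) :
    ∑ R ∈ (W \ U').powersetCard t, nReach F (U' ∪ R) R ≤
      (2 * (w : ℝ)) ^ t * 2 ^ (t.choose s) * Fintype.card (Hyp V s) := by
  set S : Finset (Finset V × Hyp V s) := Finset.univ.filter (fun b =>
    b.1 ∈ (W \ U').powersetCard t ∧ Reach F (U' ∪ b.1) b.2 b.1) with hS
  have h1 : ∑ R ∈ (W \ U').powersetCard t, nReach F (U' ∪ R) R = (S.card : ℝ) := by
    have h2 : S = ((W \ U').powersetCard t).biUnion (fun R =>
        ((Finset.univ : Finset (Hyp V s)).filter (fun y => Reach F (U' ∪ R) y R)).image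
          (fun y => (R, y))) := by
      ext ⟨R, y⟩
      simp only [hS, Finset.mem_filter, Finset.mem_univ, true_and, Finset.mem_biUnion,
        Finset.mem_image, Prod.mk.injEq]
      constructor
      · rintro ⟨h3, h4⟩
        exact ⟨R, h3, y, h4, rfl, rfl⟩
      · rintro ⟨R', h3, y', h4, rfl, rfl⟩
        exact ⟨h3, h4⟩
    rw [h2, Finset.card_biUnion]
    · push_cast
      refine Finset.sum_congr rfl fun R _ => ?_
      rw [nReach, Finset.card_image_of_injective]
      intro y y' h
      simpa using h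
    · intro R _ R' _ hne
      rw [Function.onFun, Finset.disjoint_left]
      rintro ⟨a, b⟩ h3 h4
      simp only [Finset.mem_image, Prod.mk.injEq] at h3 h4
      obtain ⟨_, _, h5, _⟩ := h3
      obtain ⟨_, _, h6, _⟩ := h4
      exact hne (h5.trans h6.symm)
  rw [h1]
  have hsub : S ⊆ (Finset.univ : Finset (Hyp V s)).biUnion (fun y' => codes F U' t (∅, y')) := by
    rintro ⟨R, y⟩ h
    simp only [hS, Finset.mem_filter, Finset.mem_univ, true_and] at h
    obtain ⟨h2, h3⟩ := h
    obtain ⟨h4, h5⟩ := Finset.mem_powersetCard.1 h2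
    have hd : Disjoint R U' := by
      rw [Finset.disjoint_left]
      intro v hv
      exact (Finset.mem_sdiff.1 (h4 hv)).2
    obtain ⟨y', hy'⟩ := exists_code hs hd h3 (Finset.Subset.refl R) y (fun _ _ => rfl)
      (fun _ _ => rfl)
    rw [Finset.mem_biUnion]
    refine ⟨y', Finset.mem_univ _, ?_⟩
    simp only [codes, Finset.mem_filter, Finset.mem_univ, true_and]
    exact ⟨hy', by simp [h5]⟩
  have h2 := (Finset.card_le_card hsub).trans Finset.card_biUnion_le
  have h3 : (S.card : ℝ) ≤ ∑ y' : Hyp V s, ((codes F U' t (∅, y')).card : ℝ) := by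
    exact_mod_cast h2
  refine h3.trans ?_
  have h4 : ∀ y' : Hyp V s, ((codes F U' t (∅, y')).card : ℝ) ≤
      (2 * (w : ℝ)) ^ t * 2 ^ (t.choose s) := by
    intro y'
    have h5 := card_codes hw1 hw U' t (∅, y')
    have h6 : Nat.choose 0 s = 0 := Nat.choose_eq_zero_of_lt hs
    simp only [Finset.card_empty, zero_add, h6, pow_zero, mul_one] at h5
    exact h5
  calc ∑ y' : Hyp V s, ((codes F U' t (∅, y')).card : ℝ)
      ≤ ∑ _y' : Hyp V s, (2 * (w : ℝ)) ^ t * 2 ^ (t.choose s) :=
        Finset.sum_le_sum fun y' _ => h4 y'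
    _ = _ := by
        rw [Finset.sum_const, nsmul_eq_mul, Finset.card_univ]
        ring

open Classical in
/-- The vertex switching lemma. -/
lemma switch {F : List (Finset V × Hyp V s)} {w r : ℕ} (hs : 1 ≤ s) (hw1 : 1 ≤ w)
    (hw : ∀ T ∈ F, T.1.card ≤ w) {p : ℝ} (hp0 : 0 ≤ p) (hp1 : p ≤ 1 / 2) (W : Finset V) :
    ∑ y : Hyp V s, bern p W (fun U => if Bad F U r y then (1 : ℝ) else 0) ≤
      (∑ t ∈ Finset.Ioc r (r + w), (4 * w * p) ^ t * 4 ^ (t.choose s)) *
        Fintype.card (Hyp V s) := by
  have h1 : ∑ y : Hyp V s, bern p W (fun U => if Bad F U r y then (1 : ℝ) else 0) =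
      bern p W (fun U => ∑ y : Hyp V s, if Bad F U r y then (1 : ℝ) else 0) :=
    (bern_sum p W Finset.univ (fun y U => if Bad F U r y then (1 : ℝ) else 0)).symm
  rw [h1]
  have h2 : bern p W (fun U => ∑ y : Hyp V s, if Bad F U r y then (1 : ℝ) else 0) ≤
      bern p W (fun U => ∑ t ∈ Finset.Ioc r (r + w), ∑ R ∈ U.powersetCard t,
        2 ^ (t.choose s) * nReach F U R) :=
    bern_mono hp0 (by linarith) W fun U _ => bad_le hw U
  refine h2.trans ?_
  rw [bern_sum, Finset.sum_mul]
  refine Finset.sum_le_sum fun t _ => ?_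
  have h3 : bern p W (fun U => ∑ R ∈ U.powersetCard t, 2 ^ (t.choose s) * nReach F U R) =
      2 ^ (t.choose s) * bern p W (fun U => ∑ R ∈ U.powersetCard t, nReach F U R) := by
    rw [← bern_mul]
    refine bern_congr p W fun U _ => ?_
    rw [Finset.mul_sum]
  rw [h3]
  have h4 := bern_shrink (p := p) (by linarith) W t (fun U R => nReach F U R)
  have h5 : bern p W (fun U => ∑ R ∈ (W \ U).powersetCard t, nReach F (U ∪ R) R) ≤
      (2 * (w : ℝ)) ^ t * 2 ^ (t.choose s) * Fintype.card (Hyp V s) := by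
    have := bern_mono (p := p) hp0 (by linarith) W
      (f := fun U => ∑ R ∈ (W \ U).powersetCard t, nReach F (U ∪ R) R)
      (g := fun _ => (2 * (w : ℝ)) ^ t * 2 ^ (t.choose s) * Fintype.card (Hyp V s))
      (fun U _ => nReach_sum hs hw1 hw W U t)
    rwa [bern_const] at this
  have h6 : (p / (1 - p)) ^ t ≤ (2 * p) ^ t := by
    refine pow_le_pow_left₀ (div_nonneg hp0 (by linarith)) ?_ _
    rw [div_le_iff₀ (by linarith)]
    nlinarith
  have h7 : (0 : ℝ) ≤ (2 * (w : ℝ)) ^ t * 2 ^ (t.choose s) * Fintype.card (Hyp V s) := by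
    positivity
  calc 2 ^ (t.choose s) * bern p W (fun U => ∑ R ∈ U.powersetCard t, nReach F U R)
      ≤ 2 ^ (t.choose s) * ((2 * p) ^ t *
          ((2 * (w : ℝ)) ^ t * 2 ^ (t.choose s) * Fintype.card (Hyp V s))) := by
        refine mul_le_mul_of_nonneg_left ?_ (by positivity)
        refine h4.trans ?_
        have h8 : (0 : ℝ) ≤ (p / (1 - p)) ^ t := pow_nonneg (div_nonneg hp0 (by linarith)) _
        exact mul_le_mul h6 h5 (bern_nonneg hp0 (by linarith) W fun U _ =>
          Finset.sum_nonneg fun R _ => by unfold nReach; positivity) (by positivity)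
    _ = _ := by
        have h9 : (4 : ℝ) ^ (t.choose s) = 2 ^ (t.choose s) * 2 ^ (t.choose s) := by
          rw [← mul_pow]; norm_num
        have h10 : (4 * (w : ℝ) * p) ^ t = (2 * p) ^ t * (2 * (w : ℝ)) ^ t := by
          rw [← mul_pow]; congr 1; ring
        rw [h9, h10]
        ring

end Pool.Agent.helper3.HPC
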